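import Pool.Agent.H58.NT.CRb
import Pool.Agent.H27.SU.DPadd

/-!
# NI2 (MP_cda23d, tool for THEOREM AX; think 1713), chapter V (quotient by a finite subgroup of odd order), file 1

`XG G P = ∑ g, cx (P + g) - ∑ g, cx g`, `YG G P = ∑ g, cy (P + g)`.  `Xi G`: the `x`-coordinates of `G - 0`.
`Mg = ∏ (X - ξ)²`, `Ng = X Mg + ∑ ((6ξ²+2a)(X-ξ) + 4 f(ξ)) ∏_{others} (X-ξ')²`,
`Lg = Mg² + ∑ (-(6ξ²+2a)(X-ξ) - 8 f(ξ)) (X-ξ) ∏_{others} (X-ξ')⁴`.
`XG P = Ng/Mg (cx P)`, `YG P = cy P · Lg/Mg² (cx P)` for `P ∉ G`.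
-/

set_option autoImplicit false

namespace Pool.Agent.H98.NV

open WeierstrassCurve Polynomial Pool.Agent.H27.SU Pool.Agent.H58.NT

variable {K : Type} [Field K] [DecidableEq K] {W : WeierstrassCurve K}

section defs

variable (G : AddSubgroup W.toAffine.Point) [Fintype G]

/-- the coordinate `x` on the quotient -/
noncomputable def XG (P : W.toAffine.Point) : K :=
  ∑ g : G, cx (P + (g : W.toAffine.Point)) - ∑ g : G, cx (g : W.toAffine.Point)

/-- the coordinate `y` on the quotient -/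
noncomputable def YG (P : W.toAffine.Point) : K := ∑ g : G, cy (P + (g : W.toAffine.Point))

/-- the `x`-coordinates of the nonzero elements -/
noncomputable def Xi : Finset K :=
  (Finset.univ.filter (fun g : G => g ≠ 0)).image (fun g : G => cx (g : W.toAffine.Point))

/-- the denominator -/
noncomputable def Mg : K[X] := ∏ ξ ∈ Xi G, (X - C ξ) ^ 2

/-- the lower part of the numerator -/
noncomputable def Nl : K[X] :=
  ∑ ξ ∈ Xi G, (C (6 * ξ ^ 2 + 2 * W.a₄) * (X - C ξ) + C (4 * (ξ ^ 3 + W.a₄ * ξ + W.a₆))) *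
    ∏ η ∈ (Xi G).erase ξ, (X - C η) ^ 2

/-- the numerator -/
noncomputable def Ng : K[X] := X * Mg G + Nl G

/-- the lower part of the numerator of `Y` -/
noncomputable def Ll : K[X] :=
  ∑ ξ ∈ Xi G, (-(C (6 * ξ ^ 2 + 2 * W.a₄) * (X - C ξ)) - C (8 * (ξ ^ 3 + W.a₄ * ξ + W.a₆))) * (X - C ξ) *
    ∏ η ∈ (Xi G).erase ξ, (X - C η) ^ 4

/-- the numerator of `Y / y` -/
noncomputable def Lg : K[X] := Mg G ^ 2 + Ll G

end defs

section sums

variable [W.IsShortNF] (G : AddSubgroup W.toAffine.Point) [Fintype G]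

omit [W.IsShortNF] in
theorem ne_neg_G (hodd : Odd (Fintype.card G)) {g : W.toAffine.Point} (hg : g ∈ G) (h0 : g ≠ 0) : g ≠ -g := by
  intro h
  have h1 : (2 : ℕ) • g = 0 := by
    rw [two_nsmul]
    nth_rewrite 1 [h]
    exact neg_add_cancel g
  have h2 : Fintype.card G • g = 0 := by
    have h4 : Fintype.card G • (⟨g, hg⟩ : G) = 0 := card_nsmul_eq_zero
    have h3 := congrArg Subtype.val h4
    rwa [AddSubgroup.coe_nsmul, AddSubgroup.coe_zero] at h3
  obtain ⟨k, hk⟩ := hodd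
  rw [hk, add_nsmul, one_nsmul, mul_nsmul, h1, nsmul_zero, zero_add] at h2
  exact h0 h2

omit [W.IsShortNF] [Fintype G] in
theorem ne_of_notMem {P : W.toAffine.Point} (hP : P ∉ G) : P ≠ 0 := fun h => hP (by rw [h]; exact G.zero_mem)

/-- a sum over `G - 0` of a function of `cx` -/
theorem sum_cx (hodd : Odd (Fintype.card G)) (φ : K → K) :
    ∑ g ∈ Finset.univ.filter (fun g : G => g ≠ 0), φ (cx (g : W.toAffine.Point)) = 2 * ∑ ξ ∈ Xi G, φ ξ := by
  rw [Finset.sum_comp φ (fun g : G => cx (g : W.toAffine.Point)), Finset.mul_sum]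
  refine Finset.sum_congr rfl fun ξ hξ => ?_
  obtain ⟨g, hg, rfl⟩ := Finset.mem_image.1 hξ
  have hg0 : g ≠ 0 := (Finset.mem_filter.1 hg).2
  have hg0' : (g : W.toAffine.Point) ≠ 0 := fun h => hg0 (Subtype.ext h)
  have hcard : (Finset.filter (fun a : G => cx (a : W.toAffine.Point) = cx (g : W.toAffine.Point))
      (Finset.univ.filter (fun g : G => g ≠ 0))) = {g, -g} := by
    ext a
    simp only [Finset.mem_filter, Finset.mem_univ, true_and, Finset.mem_insert, Finset.mem_singleton]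
    constructor
    · rintro ⟨ha, he⟩
      have ha' : (a : W.toAffine.Point) ≠ 0 := fun h => ha (Subtype.ext h)
      rcases (cx_eq_iff ha' hg0').1 he with h | h
      · exact Or.inl (Subtype.ext h)
      · exact Or.inr (Subtype.ext h)
    · rintro (rfl | rfl)
      · exact ⟨hg0, rfl⟩
      · refine ⟨neg_ne_zero.2 hg0, ?_⟩
        rw [AddSubgroup.coe_neg, cx_neg]
  rw [hcard, Finset.card_pair, two_nsmul, two_mul]
  intro h
  exact ne_neg_G G hodd g.2 hg0' (congrArg (fun z : G => (z : W.toAffine.Point)) h)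

theorem card_Xi (hodd : Odd (Fintype.card G)) : Fintype.card G = 2 * (Xi G).card + 1 := by
  have h1 : (Finset.univ.filter (fun g : G => g ≠ 0)).card = 2 * (Xi G).card := by
    have h2 : (Finset.univ.filter (fun g : G => g ≠ 0)).card = ∑ ξ ∈ Xi G, 2 := by
      refine Finset.card_eq_sum_card_image (fun g : G => cx (g : W.toAffine.Point)) _ |>.trans ?_
      refine Finset.sum_congr rfl fun ξ hξ => ?_
      obtain ⟨g, hg, rfl⟩ := Finset.mem_image.1 hξ
      have hg0 : g ≠ 0 := (Finset.mem_filter.1 hg).2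
      have hg0' : (g : W.toAffine.Point) ≠ 0 := fun h => hg0 (Subtype.ext h)
      have hcard : (Finset.filter (fun a : G => cx (a : W.toAffine.Point) = cx (g : W.toAffine.Point))
          (Finset.univ.filter (fun g : G => g ≠ 0))) = {g, -g} := by
        ext a
        simp only [Finset.mem_filter, Finset.mem_univ, true_and, Finset.mem_insert, Finset.mem_singleton]
        constructor
        · rintro ⟨ha, he⟩
          have ha' : (a : W.toAffine.Point) ≠ 0 := fun h => ha (Subtype.ext h)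
          rcases (cx_eq_iff ha' hg0').1 he with h | h
          · exact Or.inl (Subtype.ext h)
          · exact Or.inr (Subtype.ext h)
        · rintro (rfl | rfl)
          · exact ⟨hg0, rfl⟩
          · refine ⟨neg_ne_zero.2 hg0, ?_⟩
            rw [AddSubgroup.coe_neg, cx_neg]
      rw [hcard, Finset.card_pair]
      intro h
      exact ne_neg_G G hodd g.2 hg0' (congrArg (fun z : G => (z : W.toAffine.Point)) h)
    rw [h2, Finset.sum_const, smul_eq_mul, mul_comm]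
  have h3 : (Finset.univ.filter (fun g : G => g ≠ 0)).card + 1 = Fintype.card G := by
    have h4 : (Finset.univ.filter (fun g : G => g ≠ 0)) = Finset.univ.erase 0 := by
      ext a
      simp
    rw [h4, Finset.card_erase_add_one (Finset.mem_univ _), Finset.card_univ]
  omega

omit [W.IsShortNF] in
theorem mem_Xi {ξ : K} : ξ ∈ Xi G ↔ ∃ g ∈ G, g ≠ 0 ∧ cx g = ξ := by
  unfold Xi
  rw [Finset.mem_image]
  constructor
  · rintro ⟨g, hg, rfl⟩
    exact ⟨g, g.2, fun h => (Finset.mem_filter.1 hg).2 (Subtype.ext h), rfl⟩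
  · rintro ⟨g, hg, h0, rfl⟩
    refine ⟨⟨g, hg⟩, Finset.mem_filter.2 ⟨Finset.mem_univ _, fun h => h0 ?_⟩, rfl⟩
    exact congrArg (fun z : G => (z : W.toAffine.Point)) h

/-- outside `G` the coordinate is not in `Xi` -/
theorem notMem_Xi {P : W.toAffine.Point} (hP : P ∉ G) : cx P ∉ Xi G := by
  intro h
  obtain ⟨g, hg, h0, he⟩ := (mem_Xi G).1 h
  rcases (cx_eq_iff (ne_of_notMem G hP) h0).1 he.symm with h1 | h1
  · exact hP (by rw [h1]; exact hg)
  · exact hP (by rw [h1]; exact G.neg_mem hg)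

/-- `x(P+g) + x(P-g)` -/
theorem cx_pair {P g : W.toAffine.Point} (hP : P ≠ 0) (hg : g ≠ 0) (h : cx P ≠ cx g) :
    cx (P + g) + cx (P + -g) - 2 * cx g =
      ((6 * cx g ^ 2 + 2 * W.a₄) * (cx P - cx g) + 4 * (cx g ^ 3 + W.a₄ * cx g + W.a₆)) / (cx P - cx g) ^ 2 := by
  obtain ⟨-, -, h1, -⟩ := cx_add_sub hP hg h
  rw [sub_eq_add_neg P g] at h1
  have hd : cx P - cx g ≠ 0 := sub_ne_zero.2 h
  rw [eq_div_iff (pow_ne_zero 2 hd)]
  linear_combination h1

/-- `y(P+g) + y(P-g)` -/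
theorem cy_pair {P g : W.toAffine.Point} (hP : P ≠ 0) (hg : g ≠ 0) (h : cx P ≠ cx g) :
    cy (P + g) + cy (P + -g) =
      cy P * ((-((6 * cx g ^ 2 + 2 * W.a₄) * (cx P - cx g)) - 8 * (cx g ^ 3 + W.a₄ * cx g + W.a₆)) /
        (cx P - cx g) ^ 3) := by
  have hg' : -g ≠ 0 := neg_ne_zero.2 hg
  obtain ⟨-, a2, a3⟩ := coord_add hP hg h
  obtain ⟨-, b2, b3⟩ := coord_add hP hg' (by rw [cx_neg]; exact h)
  rw [cx_neg, cy_neg] at b2 b3
  have E1 := eq_short hP
  have E2 := eq_short hg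
  have hd : cx P - cx g ≠ 0 := sub_ne_zero.2 h
  rw [a3, b3, a2, b2]
  obtain ⟨x, hx⟩ : ∃ u, u = cx P := ⟨_, rfl⟩
  obtain ⟨ξ, hξ⟩ : ∃ u, u = cx g := ⟨_, rfl⟩
  obtain ⟨y, hy⟩ : ∃ u, u = cy P := ⟨_, rfl⟩
  obtain ⟨η, hη⟩ : ∃ u, u = cy g := ⟨_, rfl⟩
  rw [← hx, ← hy] at E1
  rw [← hξ, ← hη] at E2
  rw [← hx, ← hξ] at hd
  rw [← hx, ← hξ, ← hy, ← hη]
  field_simp
  linear_combination (-2 * y) * E1 - 6 * y * E2

omit [W.IsShortNF] in
theorem sum_G_split (φ : W.toAffine.Point → K) :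
    ∑ g : G, φ g = φ 0 + ∑ g ∈ Finset.univ.filter (fun g : G => g ≠ 0), φ (g : W.toAffine.Point) := by
  have h4 : (Finset.univ.filter (fun g : G => g ≠ 0)) = Finset.univ.erase 0 := by
    ext a
    simp
  rw [h4, ← Finset.add_sum_erase Finset.univ (fun g : G => φ (g : W.toAffine.Point)) (Finset.mem_univ 0)]
  rfl

omit [W.IsShortNF] in
theorem sum_G_neg (φ : W.toAffine.Point → K) :
    ∑ g ∈ Finset.univ.filter (fun g : G => g ≠ 0), φ (g : W.toAffine.Point) =
      ∑ g ∈ Finset.univ.filter (fun g : G => g ≠ 0), φ (-(g : W.toAffine.Point)) := by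
  refine Finset.sum_nbij' (fun g => -g) (fun g => -g) ?_ ?_ ?_ ?_ ?_
  · intro g hg
    simpa using hg
  · intro g hg
    simpa using hg
  · intro g _
    simp
  · intro g _
    simp
  · intro g _
    simp

/-- the formula for `XG` -/
theorem XG_eq (h2 : (2 : K) ≠ 0) (hodd : Odd (Fintype.card G)) {P : W.toAffine.Point} (hP : P ∉ G) :
    XG G P = cx P + ∑ ξ ∈ Xi G, ((6 * ξ ^ 2 + 2 * W.a₄) * (cx P - ξ) + 4 * (ξ ^ 3 + W.a₄ * ξ + W.a₆)) / (cx P - ξ) ^ 2 := by
  have h1 : ∑ g : G, cx (P + (g : W.toAffine.Point)) = cx P +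
      ∑ g ∈ Finset.univ.filter (fun g : G => g ≠ 0), cx (P + (g : W.toAffine.Point)) := by
    rw [sum_G_split G (fun g => cx (P + g)), add_zero]
  have h3 : ∑ g : G, cx (g : W.toAffine.Point) =
      ∑ g ∈ Finset.univ.filter (fun g : G => g ≠ 0), cx (g : W.toAffine.Point) := by
    rw [sum_G_split G (fun g => cx g), cx_zero, zero_add]
  have h4 := sum_G_neg G (fun g => cx (P + g))
  have h5 : ∑ g ∈ Finset.univ.filter (fun g : G => g ≠ 0), (cx (P + (g : W.toAffine.Point)) +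
      cx (P + -(g : W.toAffine.Point)) - 2 * cx (g : W.toAffine.Point)) =
      2 * ∑ ξ ∈ Xi G, ((6 * ξ ^ 2 + 2 * W.a₄) * (cx P - ξ) + 4 * (ξ ^ 3 + W.a₄ * ξ + W.a₆)) / (cx P - ξ) ^ 2 := by
    rw [← sum_cx G hodd]
    refine Finset.sum_congr rfl fun g hg => ?_
    have hg0 : (g : W.toAffine.Point) ≠ 0 := fun h => (Finset.mem_filter.1 hg).2 (Subtype.ext h)
    exact cx_pair (ne_of_notMem G hP) hg0 (fun h => notMem_Xi G hP ((mem_Xi G).2 ⟨g, g.2, hg0, h.symm⟩))
  rw [Finset.sum_sub_distrib, Finset.sum_add_distrib, ← Finset.mul_sum, ← h4] at h5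
  unfold XG
  rw [h1, h3]
  refine mul_left_cancel₀ h2 ?_
  linear_combination h5

/-- the formula for `YG` -/
theorem YG_eq (h2 : (2 : K) ≠ 0) (hodd : Odd (Fintype.card G)) {P : W.toAffine.Point} (hP : P ∉ G) :
    YG G P = cy P * (1 + ∑ ξ ∈ Xi G, (-((6 * ξ ^ 2 + 2 * W.a₄) * (cx P - ξ)) - 8 * (ξ ^ 3 + W.a₄ * ξ + W.a₆)) /
      (cx P - ξ) ^ 3) := by
  have h1 : ∑ g : G, cy (P + (g : W.toAffine.Point)) = cy P +
      ∑ g ∈ Finset.univ.filter (fun g : G => g ≠ 0), cy (P + (g : W.toAffine.Point)) := by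
    rw [sum_G_split G (fun g => cy (P + g)), add_zero]
  have h4 := sum_G_neg G (fun g => cy (P + g))
  have h5 : ∑ g ∈ Finset.univ.filter (fun g : G => g ≠ 0), (cy (P + (g : W.toAffine.Point)) +
      cy (P + -(g : W.toAffine.Point))) =
      2 * ∑ ξ ∈ Xi G, cy P * ((-((6 * ξ ^ 2 + 2 * W.a₄) * (cx P - ξ)) - 8 * (ξ ^ 3 + W.a₄ * ξ + W.a₆)) /
        (cx P - ξ) ^ 3) := by
    rw [← sum_cx G hodd]
    refine Finset.sum_congr rfl fun g hg => ?_
    have hg0 : (g : W.toAffine.Point) ≠ 0 := fun h => (Finset.mem_filter.1 hg).2 (Subtype.ext h)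
    exact cy_pair (ne_of_notMem G hP) hg0 (fun h => notMem_Xi G hP ((mem_Xi G).2 ⟨g, g.2, hg0, h.symm⟩))
  rw [Finset.sum_add_distrib, ← h4, ← Finset.mul_sum] at h5
  unfold YG
  rw [h1]
  refine mul_left_cancel₀ h2 ?_
  linear_combination h5

end sums

end Pool.Agent.H98.NV
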