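import Pool.Agent.H98.NV.V1

/-!
# NI2, chapter V, file 1b: the polynomials

`Mg` is monic of degree `2k` (`k = |Xi G|`, `|G| = 2k + 1`), `deg Nl < 2k` (if `k > 0`; `Nl = 0` if `k = 0`), `Ng` is monic of degree `2k + 1`, coprime to `Mg`, `deg Ll ≤ 4k - 2`.
-/

set_option autoImplicit false

namespace Pool.Agent.H98.NV

open WeierstrassCurve Polynomial Pool.Agent.H27.SU Pool.Agent.H58.NT

variable {K : Type} [Field K] [DecidableEq K] {W : WeierstrassCurve K}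

section pol

variable [W.IsShortNF] (G : AddSubgroup W.toAffine.Point) [Fintype G]

omit [W.IsShortNF] in
theorem Mg_eval (x : K) : (Mg G).eval x = ∏ ξ ∈ Xi G, (x - ξ) ^ 2 := by
  unfold Mg
  rw [eval_prod]
  refine Finset.prod_congr rfl fun ξ _ => ?_
  simp

omit [W.IsShortNF] in
theorem Mg_monic : (Mg G).Monic := monic_prod_of_monic _ _ fun ξ _ => (monic_X_sub_C ξ).pow 2

omit [W.IsShortNF] in
theorem Mg_natDegree : (Mg G).natDegree = 2 * (Xi G).card := by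
  unfold Mg
  rw [natDegree_prod_of_monic _ _ fun ξ _ => (monic_X_sub_C ξ).pow 2]
  rw [Finset.sum_congr rfl fun ξ _ => by rw [natDegree_pow, natDegree_X_sub_C]]
  rw [Finset.sum_const, smul_eq_mul, mul_one, mul_comm]

omit [W.IsShortNF] in
theorem Mg_eval_ne {x : K} (hx : x ∉ Xi G) : (Mg G).eval x ≠ 0 := by
  rw [Mg_eval]
  refine Finset.prod_ne_zero_iff.2 fun ξ hξ => pow_ne_zero 2 (sub_ne_zero.2 ?_)
  rintro rfl
  exact hx hξ

omit [W.IsShortNF] in
theorem Mg_eval_zero {x : K} (hx : x ∈ Xi G) : (Mg G).eval x = 0 := by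
  rw [Mg_eval]
  exact Finset.prod_eq_zero hx (by rw [sub_self]; exact zero_pow two_ne_zero)

omit [W.IsShortNF] in
theorem Nl_eval {x : K} (hx : x ∉ Xi G) : (Nl G).eval x =
    (∑ ξ ∈ Xi G, ((6 * ξ ^ 2 + 2 * W.a₄) * (x - ξ) + 4 * (ξ ^ 3 + W.a₄ * ξ + W.a₆)) / (x - ξ) ^ 2) * (Mg G).eval x := by
  rw [Finset.sum_mul]
  unfold Nl
  rw [eval_finsetSum]
  refine Finset.sum_congr rfl fun ξ hξ => ?_
  have hne : x - ξ ≠ 0 := sub_ne_zero.2 (by rintro rfl; exact hx hξ)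
  rw [Mg_eval, ← Finset.mul_prod_erase _ _ hξ, eval_mul, eval_prod]
  have e1 : (∏ j ∈ (Xi G).erase ξ, ((X - C j) ^ 2 : K[X]).eval x) = ∏ j ∈ (Xi G).erase ξ, (x - j) ^ 2 :=
    Finset.prod_congr rfl fun j _ => by simp
  rw [e1]
  simp only [eval_add, eval_mul, eval_sub, eval_X, eval_C]
  field_simp

omit [W.IsShortNF] in
theorem Ll_eval {x : K} (hx : x ∉ Xi G) : (Ll G).eval x =
    (∑ ξ ∈ Xi G, (-((6 * ξ ^ 2 + 2 * W.a₄) * (x - ξ)) - 8 * (ξ ^ 3 + W.a₄ * ξ + W.a₆)) / (x - ξ) ^ 3) *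
      (Mg G).eval x ^ 2 := by
  rw [Finset.sum_mul]
  unfold Ll
  rw [eval_finsetSum]
  refine Finset.sum_congr rfl fun ξ hξ => ?_
  have hne : x - ξ ≠ 0 := sub_ne_zero.2 (by rintro rfl; exact hx hξ)
  have e2 : (Mg G).eval x ^ 2 = (x - ξ) ^ 4 * ∏ j ∈ (Xi G).erase ξ, (x - j) ^ 4 := by
    rw [Mg_eval, ← Finset.prod_pow, ← Finset.mul_prod_erase _ _ hξ]
    congr 1
    · ring
    · exact Finset.prod_congr rfl fun j _ => by ring
  rw [e2, eval_mul, eval_prod]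
  have e1 : (∏ j ∈ (Xi G).erase ξ, ((X - C j) ^ 4 : K[X]).eval x) = ∏ j ∈ (Xi G).erase ξ, (x - j) ^ 4 :=
    Finset.prod_congr rfl fun j _ => by simp
  rw [e1]
  simp only [eval_mul, eval_sub, eval_neg, eval_X, eval_C]
  field_simp

/-- the formula for `XG` -/
theorem XG_val (h2 : (2 : K) ≠ 0) (hodd : Odd (Fintype.card G)) {P : W.toAffine.Point} (hP : P ∉ G) :
    XG G P * (Mg G).eval (cx P) = (Ng G).eval (cx P) := by
  rw [XG_eq G h2 hodd hP, add_mul, ← Nl_eval G (notMem_Xi G hP)]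
  unfold Ng
  rw [eval_add, eval_mul, eval_X]

/-- the formula for `YG` -/
theorem YG_val (h2 : (2 : K) ≠ 0) (hodd : Odd (Fintype.card G)) {P : W.toAffine.Point} (hP : P ∉ G) :
    YG G P * (Mg G).eval (cx P) ^ 2 = cy P * (Lg G).eval (cx P) := by
  rw [YG_eq G h2 hodd hP, mul_assoc, add_mul, ← Ll_eval G (notMem_Xi G hP)]
  unfold Lg
  rw [eval_add, eval_pow]
  ring

omit [W.IsShortNF] in
theorem Nl_degree : (Nl G).degree < (Mg G).degree := by
  have hM := (Mg_monic G).ne_zero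
  by_cases h : Xi G = ∅
  · unfold Nl
    rw [h, Finset.sum_empty, degree_zero]
    exact bot_lt_iff_ne_bot.2 (degree_ne_bot.2 hM)
  · refine (degree_sum_le _ _).trans_lt ((Finset.sup_lt_iff (bot_lt_iff_ne_bot.2 (degree_ne_bot.2 hM))).2 fun ξ hξ => ?_)
    rw [degree_mul]
    have h1 : (C (6 * ξ ^ 2 + 2 * W.a₄) * (X - C ξ) + C (4 * (ξ ^ 3 + W.a₄ * ξ + W.a₆)) : K[X]).degree ≤ 1 := by
      refine (degree_add_le _ _).trans (max_le ?_ (degree_C_le.trans zero_le_one))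
      rw [degree_mul, degree_X_sub_C]
      calc (C (6 * ξ ^ 2 + 2 * W.a₄) : K[X]).degree + 1 ≤ 0 + 1 := by gcongr; exact degree_C_le
        _ = 1 := zero_add _
    have h3 : (∏ η ∈ (Xi G).erase ξ, (X - C η) ^ 2 : K[X]).Monic :=
      monic_prod_of_monic _ _ fun ξ _ => (monic_X_sub_C ξ).pow 2
    have h2 : (∏ η ∈ (Xi G).erase ξ, (X - C η) ^ 2 : K[X]).natDegree = 2 * ((Xi G).erase ξ).card := by
      rw [natDegree_prod_of_monic _ _ fun ξ _ => (monic_X_sub_C ξ).pow 2]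
      rw [Finset.sum_congr rfl fun ξ _ => by rw [natDegree_pow, natDegree_X_sub_C]]
      rw [Finset.sum_const, smul_eq_mul, mul_one, mul_comm]
    rw [degree_eq_natDegree hM, degree_eq_natDegree h3.ne_zero, Mg_natDegree, h2]
    have h4 := Finset.card_erase_add_one hξ
    calc _ ≤ (1 : WithBot ℕ) + ((2 * ((Xi G).erase ξ).card : ℕ) : WithBot ℕ) := by gcongr
      _ < ((2 * (Xi G).card : ℕ) : WithBot ℕ) := by
        rw [← h4]
        have : (1 : WithBot ℕ) + ((2 * ((Xi G).erase ξ).card : ℕ) : WithBot ℕ) =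
          ((1 + 2 * ((Xi G).erase ξ).card : ℕ) : WithBot ℕ) := by push_cast; rfl
        rw [this]
        have h7 : 1 + 2 * ((Xi G).erase ξ).card < 2 * (((Xi G).erase ξ).card + 1) := by omega
        exact_mod_cast h7

omit [W.IsShortNF] in
theorem Ng_monic : (Ng G).Monic := by
  unfold Ng
  refine (monic_X.mul (Mg_monic G)).add_of_left ?_
  rw [degree_mul, degree_X]
  refine (Nl_degree G).trans_le ?_
  calc (Mg G).degree = 0 + (Mg G).degree := (zero_add _).symm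
    _ ≤ 1 + (Mg G).degree := by gcongr; exact zero_le_one

omit [W.IsShortNF] in
theorem Ng_natDegree : (Ng G).natDegree = 2 * (Xi G).card + 1 := by
  have h1 : (Ng G).degree = (X * Mg G).degree := by
    unfold Ng
    refine degree_add_eq_left_of_degree_lt ?_
    rw [degree_mul, degree_X]
    refine (Nl_degree G).trans_le ?_
    calc (Mg G).degree = 0 + (Mg G).degree := (zero_add _).symm
      _ ≤ 1 + (Mg G).degree := by gcongr; exact zero_le_one
  rw [natDegree_eq_of_degree_eq h1, natDegree_X_mul (Mg_monic G).ne_zero, Mg_natDegree]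

omit [W.IsShortNF] in
theorem Ll_natDegree : Ll G = 0 ∨ (Ll G).natDegree + 2 ≤ 4 * (Xi G).card := by
  by_cases h : Xi G = ∅
  · left
    unfold Ll
    rw [h, Finset.sum_empty]
  · right
    have hk : 0 < (Xi G).card := Finset.card_pos.2 (Finset.nonempty_iff_ne_empty.2 h)
    have h5 : (Ll G).natDegree ≤ 4 * (Xi G).card - 2 := by
      unfold Ll
      refine natDegree_sum_le_of_forall_le _ _ fun ξ hξ => ?_
      have h1 : (-(C (6 * ξ ^ 2 + 2 * W.a₄) * (X - C ξ)) - C (8 * (ξ ^ 3 + W.a₄ * ξ + W.a₆)) : K[X]).natDegree ≤ 1 := by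
        refine (natDegree_sub_le _ _).trans (max_le ?_ (by rw [natDegree_C]; exact Nat.zero_le _))
        rw [natDegree_neg]
        exact (natDegree_C_mul_le _ _).trans (natDegree_X_sub_C ξ).le
      have h2 : (∏ η ∈ (Xi G).erase ξ, (X - C η) ^ 4 : K[X]).natDegree = 4 * ((Xi G).erase ξ).card := by
        rw [natDegree_prod_of_monic _ _ fun ξ _ => (monic_X_sub_C ξ).pow 4]
        rw [Finset.sum_congr rfl fun ξ _ => by rw [natDegree_pow, natDegree_X_sub_C]]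
        rw [Finset.sum_const, smul_eq_mul, mul_one, mul_comm]
      have h4 := Finset.card_erase_add_one hξ
      refine (natDegree_mul_le).trans ?_
      rw [h2]
      have h6 := natDegree_mul_le (p := (-(C (6 * ξ ^ 2 + 2 * W.a₄) * (X - C ξ)) -
        C (8 * (ξ ^ 3 + W.a₄ * ξ + W.a₆)) : K[X])) (q := (X - C ξ : K[X]))
      rw [natDegree_X_sub_C] at h6
      omega
    omega

/-- the roots of `Mg` are not roots of `Ng` -/
theorem Ng_eval_ne (h2 : (2 : K) ≠ 0) (hodd : Odd (Fintype.card G)) {ξ : K} (hξ : ξ ∈ Xi G) : (Ng G).eval ξ ≠ 0 := by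
  have h1 : (Ng G).eval ξ = 4 * (ξ ^ 3 + W.a₄ * ξ + W.a₆) * ∏ η ∈ (Xi G).erase ξ, (ξ - η) ^ 2 := by
    unfold Ng Nl
    rw [eval_add, eval_mul, Mg_eval_zero G hξ, mul_zero, zero_add, eval_finsetSum, ← Finset.add_sum_erase _ _ hξ]
    have e1 : ∀ ζ ∈ (Xi G).erase ξ, ((C (6 * ζ ^ 2 + 2 * W.a₄) * (X - C ζ) + C (4 * (ζ ^ 3 + W.a₄ * ζ + W.a₆))) *
        ∏ η ∈ (Xi G).erase ζ, (X - C η) ^ 2 : K[X]).eval ξ = 0 := by
      intro ζ hζ
      rw [eval_mul, eval_prod]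
      have h3 : ξ ∈ (Xi G).erase ζ := Finset.mem_erase.2 ⟨(Finset.mem_erase.1 hζ).1.symm, hξ⟩
      rw [Finset.prod_eq_zero h3, mul_zero]
      simp
    rw [Finset.sum_eq_zero e1, add_zero, eval_mul, eval_prod]
    have e2 : (∏ j ∈ (Xi G).erase ξ, ((X - C j) ^ 2 : K[X]).eval ξ) = ∏ j ∈ (Xi G).erase ξ, (ξ - j) ^ 2 :=
      Finset.prod_congr rfl fun j _ => by simp
    rw [e2]
    simp
  rw [h1]
  obtain ⟨g, hg, h0, rfl⟩ := (mem_Xi G).1 hξ
  have h4 : (4 : K) ≠ 0 := by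
    have : (4 : K) = 2 * 2 := by norm_num
    rw [this]
    exact mul_ne_zero h2 h2
  rw [← eq_short h0]
  refine mul_ne_zero (mul_ne_zero h4 (pow_ne_zero 2 ?_)) ?_
  · intro h5
    have h6 := (two_nsmul_eq_zero_iff h2 h0).2 h5
    rw [two_nsmul] at h6
    exact ne_neg_G G hodd hg h0 (eq_neg_of_add_eq_zero_left h6)
  · refine Finset.prod_ne_zero_iff.2 fun η hη => pow_ne_zero 2 (sub_ne_zero.2 ?_)
    exact (Finset.mem_erase.1 hη).1.symm

theorem Ng_Mg_coprime (h2 : (2 : K) ≠ 0) (hodd : Odd (Fintype.card G)) : IsCoprime (Ng G) (Mg G) := by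
  unfold Mg
  refine IsCoprime.prod_right fun ξ hξ => IsCoprime.pow_right ?_
  refine IsCoprime.symm ?_
  rw [(irreducible_X_sub_C ξ).coprime_iff_not_dvd]
  intro h
  exact Ng_eval_ne G h2 hodd hξ (dvd_iff_isRoot.1 h)

end pol

end Pool.Agent.H98.NV
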