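import Pool.Agent.H98.NV.V1b

/-!
# NI2, chapter V, file 2: the equation of the quotient

`inv_zero`: a `G`-invariant function `A/B (cx P)` with poles only in `G` which vanishes at `0` is `0`: write `A/B = u/v` with `u`, `v` coprime; if `v` is not constant it has a root `ξ = cx g₀`, `g₀ ∈ G - 0`;
`R ↦ u/v (cx (g₀ + R))` has the value `0` at infinity, as `u/v (cx R)`; so `u ξ = v ξ · 0 = 0`, contradiction.
`quo_eq`: `f L² = N³ M + a' N M³ + b' M⁴`: `a'`, `b'` are chosen such that the difference has degree `< deg M⁴`.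
-/

set_option autoImplicit false

namespace Pool.Agent.H98.NV

open WeierstrassCurve Polynomial Pool.Agent.H27.SU Pool.Agent.H58.NT

variable {K : Type} [Field K] [DecidableEq K] {W : WeierstrassCurve K}

section inv

variable [W.IsShortNF] (G : AddSubgroup W.toAffine.Point) [Fintype G]

omit [W.IsShortNF] in
theorem XG_add {P g : W.toAffine.Point} (hg : g ∈ G) : XG G (P + g) = XG G P := by
  unfold XG
  congr 1
  refine Fintype.sum_equiv (Equiv.addLeft (⟨g, hg⟩ : G)) _ _ fun h => ?_
  show cx (P + g + (h : W.toAffine.Point)) = cx (P + ((⟨g, hg⟩ + h : G) : W.toAffine.Point))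
  rw [AddSubgroup.coe_add, add_assoc]

omit [W.IsShortNF] in
theorem YG_add {P g : W.toAffine.Point} (hg : g ∈ G) : YG G (P + g) = YG G P := by
  unfold YG
  refine Fintype.sum_equiv (Equiv.addLeft (⟨g, hg⟩ : G)) _ _ fun h => ?_
  show cy (P + g + (h : W.toAffine.Point)) = cy (P + ((⟨g, hg⟩ + h : G) : W.toAffine.Point))
  rw [AddSubgroup.coe_add, add_assoc]

theorem XG_neg (P : W.toAffine.Point) : XG G (-P) = XG G P := by
  unfold XG
  congr 1
  refine Fintype.sum_equiv (Equiv.neg G) _ _ fun h => ?_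
  show cx (-P + (h : W.toAffine.Point)) = cx (P + ((-h : G) : W.toAffine.Point))
  rw [AddSubgroup.coe_neg, ← cx_neg (P + -(h : W.toAffine.Point))]
  congr 1
  rw [neg_add, neg_neg]

theorem YG_neg (P : W.toAffine.Point) : YG G (-P) = -YG G P := by
  unfold YG
  rw [← Finset.sum_neg_distrib]
  refine Fintype.sum_equiv (Equiv.neg G) _ _ fun h => ?_
  show cy (-P + (h : W.toAffine.Point)) = -cy (P + ((-h : G) : W.toAffine.Point))
  rw [AddSubgroup.coe_neg, ← cy_neg]
  congr 1
  rw [neg_add, neg_neg]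

omit [W.IsShortNF] in
private theorem wt_re {u v : K[X]} (h : u.degree < v.degree) : wt (⟨u, 0⟩ : RR W) < wt (⟨v, 0⟩ : RR W) := by
  have hv : v ≠ 0 := by
    rintro rfl
    rw [degree_zero] at h
    exact not_lt_bot h
  unfold wt
  have e : ∀ w : K[X], QuadraticAlgebra.norm (⟨w, 0⟩ : RR W) = w * w := by
    intro w
    rw [QuadraticAlgebra.norm_def]
    ring
  rw [e, e, degree_mul, degree_mul]
  by_cases hu : u = 0
  · rw [hu, degree_zero, WithBot.bot_add]
    exact bot_lt_iff_ne_bot.2 (WithBot.add_ne_bot.2 ⟨degree_ne_bot.2 hv, degree_ne_bot.2 hv⟩)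
  · rw [degree_eq_natDegree hu, degree_eq_natDegree hv] at h ⊢
    have h1 : u.natDegree < v.natDegree := by exact_mod_cast h
    have h2 : u.natDegree + u.natDegree < v.natDegree + v.natDegree := by omega
    exact_mod_cast h2

omit [DecidableEq K] in
private theorem hm_val {m : ℕ} {N : K[X]} (hN : N.natDegree ≤ m) {u v : K} (hv : v ≠ 0) :
    hm m N u v = v ^ m * N.eval (u / v) := by
  unfold hm
  rw [Polynomial.eval_eq_sum_range' (Nat.lt_succ_of_le hN), Finset.mul_sum]
  refine Finset.sum_congr rfl fun i hi => ?_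
  have hi' : i ≤ m := Nat.lt_succ_iff.1 (Finset.mem_range.1 hi)
  obtain ⟨j, rfl⟩ := Nat.exists_eq_add_of_le hi'
  rw [Nat.add_sub_cancel_left, pow_add, div_pow]
  show N.coeff i * u ^ i * v ^ j = _
  field_simp

/-- an invariant function with poles only in `G` which vanishes at `0` is zero -/
theorem inv_zero [IsAlgClosed K] [W.IsElliptic] (h2 : (2 : K) ≠ 0) {A B : K[X]} (hdeg : A.degree < B.degree)
    (hroot : ∀ ξ, B.eval ξ = 0 → ξ ∈ Xi G)
    (hinv : ∀ P ∉ G, ∀ g ∈ G, A.eval (cx (P + g)) * B.eval (cx P) = A.eval (cx P) * B.eval (cx (P + g))) : A = 0 := by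
  have hB : B ≠ 0 := by
    rintro rfl
    rw [degree_zero] at hdeg
    exact not_lt_bot hdeg
  by_contra hA
  obtain ⟨d, hd⟩ : ∃ d, d = EuclideanDomain.gcd A B := ⟨_, rfl⟩
  obtain ⟨u, hu⟩ : d ∣ A := hd ▸ EuclideanDomain.gcd_dvd_left A B
  obtain ⟨v, hv⟩ : d ∣ B := hd ▸ EuclideanDomain.gcd_dvd_right A B
  have hd0 : d ≠ 0 := by
    rintro rfl
    rw [zero_mul] at hv
    exact hB hv
  have hv0 : v ≠ 0 := by
    rintro rfl
    rw [mul_zero] at hv
    exact hB hv
  have hu0 : u ≠ 0 := by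
    rintro rfl
    rw [mul_zero] at hu
    exact hA hu
  have hcop : IsCoprime u v := by
    obtain ⟨s, t, hst⟩ : ∃ s t, d = A * s + B * t := ⟨_, _, hd ▸ EuclideanDomain.gcd_eq_gcd_ab A B⟩
    refine ⟨s, t, mul_left_cancel₀ hd0 ?_⟩
    rw [mul_one]
    conv_rhs => rw [hst, hu, hv]
    ring
  have hduv : u.degree < v.degree := by
    rw [hu, hv, degree_mul, degree_mul] at hdeg
    exact lt_of_add_lt_add_left hdeg
  have hnuv : u.natDegree ≤ v.natDegree := natDegree_le_natDegree hduv.le
  have hvd : v.degree ≠ 0 := by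
    intro h
    rw [h, degree_eq_natDegree hu0] at hduv
    exact absurd (by exact_mod_cast hduv : u.natDegree < 0) (Nat.not_lt_zero _)
  obtain ⟨ξ, hξ⟩ := IsAlgClosed.exists_root v hvd
  have hξ' : v.eval ξ = 0 := hξ
  obtain ⟨g, hg, g0, hgx⟩ := (mem_Xi G).1 (hroot ξ (by rw [hv, eval_mul, hξ', mul_zero]))
  obtain ⟨m, hm'⟩ : ∃ m, m = v.natDegree := ⟨_, rfl⟩
  have key : hm m u (UP g) (VP g) * (⟨v, 0⟩ : RR W) = hm m v (UP g) (VP g) * (⟨u, 0⟩ : RR W) := by
    rw [← sub_eq_zero]
    refine gv_zero h2 ((Set.toFinite (G : Set W.toAffine.Point)).subset fun R hR => ?_)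
    by_contra hRG
    have hRG' : R ∉ G := hRG
    apply hR
    have hR0 : R ≠ 0 := ne_of_notMem G hRG'
    refine ⟨hR0, ?_⟩
    have hxR : cx R ≠ cx g := fun h => notMem_Xi G hRG' ((mem_Xi G).2 ⟨g, hg, g0, h.symm⟩)
    obtain ⟨-, e1⟩ := gv_UP h2 g0 hR0 hxR
    have hVg : gv (VP g) R ≠ 0 := by
      rw [gv_VP]
      exact pow_ne_zero 2 (sub_ne_zero.2 hxR)
    rw [gv_sub, gv_mul _ _ hR0, gv_mul _ _ hR0, gv_re, gv_re, gv_hm _ _ _ _ hR0, gv_hm _ _ _ _ hR0,
      hm_val (hm' ▸ hnuv) hVg, hm_val hm'.ge hVg, ← e1, add_comm g R]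
    have e2 := hinv R hRG' g hg
    rw [hu, hv, eval_mul, eval_mul, eval_mul, eval_mul] at e2
    have hRg : R + g ∉ G := fun h => hRG' ((G.add_mem_cancel_right hg).1 h)
    have hB1 : B.eval (cx R) ≠ 0 := fun h => notMem_Xi G hRG' (hroot _ h)
    have hB2 : B.eval (cx (R + g)) ≠ 0 := fun h => notMem_Xi G hRg (hroot _ h)
    rw [hv, eval_mul] at hB1 hB2
    have hd1 := left_ne_zero_of_mul hB1
    have hd2 := left_ne_zero_of_mul hB2
    have e3 : u.eval (cx (R + g)) * v.eval (cx R) = v.eval (cx (R + g)) * u.eval (cx R) := by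
      refine mul_left_cancel₀ (mul_ne_zero hd1 hd2) ?_
      linear_combination e2
    linear_combination gv (VP g) R ^ m * e3
  have L1 := lm_hm (lm_UP g) m u (hm' ▸ hnuv)
  have L2 := lm_hm (lm_UP g) m v hm'.ge
  have L3 := lm_mul L2 (lm_zero (wt_re (W := W) hduv))
  have e4 := lm_unique (by linear_combination (VP g) ^ m * key) L1 L3
  rw [mul_zero, hgx] at e4
  obtain ⟨s, t, hst⟩ := hcop
  have h3 := congrArg (eval ξ) hst
  rw [eval_add, eval_mul, eval_mul, e4, hξ', eval_one, mul_zero, mul_zero, add_zero] at h3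
  exact zero_ne_one h3

end inv

section eqn

variable [W.IsShortNF] (G : AddSubgroup W.toAffine.Point) [Fintype G]

/-- `f L² - N³ M` -/
noncomputable def Qg : K[X] := fW W * Lg G ^ 2 - Ng G ^ 3 * Mg G

/-- the coefficient `a₄` of the quotient -/
noncomputable def aq : K := (Qg G).coeff (8 * (Xi G).card + 1)

/-- the coefficient `a₆` of the quotient -/
noncomputable def bq : K := (Qg G - C (aq G) * (Ng G * Mg G ^ 3)).coeff (8 * (Xi G).card)

omit [W.IsShortNF] in
private theorem Qg_natDegree : (Qg G).natDegree ≤ 8 * (Xi G).card + 1 := by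
  have e1 : Qg G = fW W * Ll G * (C 2 * Mg G ^ 2 + Ll G) + (C W.a₄ * X + C W.a₆) * Mg G ^ 4 -
      Mg G * Nl G * (Ng G ^ 2 + Ng G * (X * Mg G) + X ^ 2 * Mg G ^ 2) := by
    unfold Qg Lg Ng fW
    have : (C (2 : K) : K[X]) = 2 := rfl
    rw [this]
    ring
  have hM := Mg_natDegree G
  have hN := Ng_natDegree G
  have hf := (fW_monic W).2
  have hM2 : (Mg G ^ 2).natDegree = 4 * (Xi G).card := by rw [natDegree_pow, hM]; ring
  have hM4 : (Mg G ^ 4).natDegree = 8 * (Xi G).card := by rw [natDegree_pow, hM]; ring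
  rw [e1]
  refine (natDegree_sub_le _ _).trans (max_le ((natDegree_add_le _ _).trans (max_le ?_ ?_)) ?_)
  · rcases Ll_natDegree G with h | h
    · rw [h, mul_zero, zero_mul, natDegree_zero]
      exact Nat.zero_le _
    · refine natDegree_mul_le.trans ?_
      have h1 := natDegree_mul_le (p := fW W) (q := Ll G)
      have h3 : (C (2 : K) * Mg G ^ 2 + Ll G).natDegree ≤ 4 * (Xi G).card := by
        refine (natDegree_add_le _ _).trans (max_le ?_ (by omega))
        exact (natDegree_C_mul_le _ _).trans hM2.le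
      omega
  · refine natDegree_mul_le.trans ?_
    have h1 : (C W.a₄ * X + C W.a₆ : K[X]).natDegree ≤ 1 := natDegree_linear_le
    omega
  · by_cases h0 : Nl G = 0
    · rw [h0, mul_zero, zero_mul, natDegree_zero]
      exact Nat.zero_le _
    have h5 : (Nl G).natDegree < (Mg G).natDegree := natDegree_lt_natDegree h0 (Nl_degree G)
    refine natDegree_mul_le.trans ?_
    have h1 := natDegree_mul_le (p := Mg G) (q := Nl G)
    have h3 : (Ng G ^ 2 + Ng G * (X * Mg G) + X ^ 2 * Mg G ^ 2).natDegree ≤ 4 * (Xi G).card + 2 := by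
      refine (natDegree_add_le _ _).trans (max_le ((natDegree_add_le _ _).trans (max_le ?_ ?_)) ?_)
      · rw [natDegree_pow, hN]
        omega
      · refine natDegree_mul_le.trans ?_
        have := natDegree_mul_le (p := (X : K[X])) (q := Mg G)
        rw [natDegree_X] at this
        omega
      · refine natDegree_mul_le.trans ?_
        rw [natDegree_X_pow]
        omega
    omega

/-- the equation of the quotient, as an identity of polynomials -/
theorem quo_eq [IsAlgClosed K] [W.IsElliptic] (h2 : (2 : K) ≠ 0) (hodd : Odd (Fintype.card G)) :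
    fW W * Lg G ^ 2 = Ng G ^ 3 * Mg G + C (aq G) * (Ng G * Mg G ^ 3) + C (bq G) * Mg G ^ 4 := by
  have hM := Mg_natDegree G
  have hN := Ng_natDegree G
  have hM4 : (Mg G ^ 4).natDegree = 8 * (Xi G).card := by rw [natDegree_pow, hM]; ring
  have hNM : (Ng G * Mg G ^ 3).Monic := (Ng_monic G).mul ((Mg_monic G).pow 3)
  have hNMd : (Ng G * Mg G ^ 3).natDegree = 8 * (Xi G).card + 1 := by
    rw [(Ng_monic G).natDegree_mul ((Mg_monic G).pow 3), natDegree_pow, hM, hN]
    ring
  have hM4m : (Mg G ^ 4).Monic := (Mg_monic G).pow 4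
  obtain ⟨A, hA⟩ : ∃ A, A = Qg G - C (aq G) * (Ng G * Mg G ^ 3) - C (bq G) * Mg G ^ 4 := ⟨_, rfl⟩
  have hAd : A.degree < (Mg G ^ 4).degree := by
    rw [degree_eq_natDegree hM4m.ne_zero, hM4, degree_lt_iff_coeff_zero]
    intro i hi
    rw [hA, coeff_sub, coeff_sub, coeff_C_mul, coeff_C_mul]
    rcases Nat.lt_or_ge (8 * (Xi G).card + 1) i with h | h
    · rw [coeff_eq_zero_of_natDegree_lt ((Qg_natDegree G).trans_lt h),
        coeff_eq_zero_of_natDegree_lt (hNMd.trans_lt h), coeff_eq_zero_of_natDegree_lt (by omega)]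
      ring
    · rcases Nat.lt_or_ge (8 * (Xi G).card) i with h' | h'
      · have hi' : i = 8 * (Xi G).card + 1 := by omega
        have e1 : (Ng G * Mg G ^ 3).coeff i = 1 := by
          rw [hi', ← hNMd]
          exact hNM.coeff_natDegree
        rw [e1, coeff_eq_zero_of_natDegree_lt (p := Mg G ^ 4) (by omega), hi']
        unfold aq
        ring
      · have hi' : i = 8 * (Xi G).card := by omega
        have e1 : (Mg G ^ 4).coeff i = 1 := by
          rw [hi', ← hM4]
          exact hM4m.coeff_natDegree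
        rw [e1, hi']
        unfold bq
        rw [coeff_sub, coeff_C_mul]
        ring
  have hA0 : A = 0 := by
    have hval : ∀ P ∉ G, A.eval (cx P) = (YG G P ^ 2 - XG G P ^ 3 - aq G * XG G P - bq G) * (Mg G ^ 4).eval (cx P) := by
      intro P hP
      have e1 := XG_val G h2 hodd hP
      have e2 := YG_val G h2 hodd hP
      have e3 := eq_short (ne_of_notMem G hP)
      rw [hA]
      unfold Qg
      simp only [eval_sub, eval_mul, eval_pow, eval_C, fW_eval]
      rw [← e1, ← e3]
      linear_combination (-(cy P * (Lg G).eval (cx P)) - YG G P * (Mg G).eval (cx P) ^ 2) * e2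
    refine inv_zero G h2 hAd (fun ξ hξ => ?_) fun P hP g hg => ?_
    · by_contra h
      rw [eval_pow] at hξ
      exact Mg_eval_ne G h (pow_eq_zero_iff four_ne_zero |>.1 hξ)
    · have hPg : P + g ∉ G := fun h => hP ((G.add_mem_cancel_right hg).1 h)
      rw [hval P hP, hval (P + g) hPg, XG_add G hg, YG_add G hg]
      ring
  rw [hA0] at hA
  unfold Qg at hA
  linear_combination -hA

end eqn

end Pool.Agent.H98.NV
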