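import Pool.Agent.H98.NV.V2

/-!
# NI2, chapter V, file 3: the quotient curve is not singular; fibres

Points of order two `T₁, T₂, T₃`: `XG Tᵢ` are roots of `X³ + a' X + b'`. They are different: if `XG T₁ = XG T₂ = c` then the polynomial `N - c M` of degree `n = |G|` has the `n + 1` roots `cx (Tᵢ + g)`.
`fib`: `XG P = XG P'` only for `P' ∈ ± P + G`.
-/

set_option autoImplicit false

namespace Pool.Agent.H98.NV

open WeierstrassCurve Polynomial Pool.Agent.H27.SU Pool.Agent.H58.NT

/-- a function on a group of odd order with fibres `{g, -g}` has `(n - 1)/2` values on the nonzero elements -/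
theorem card_im {A β : Type} [AddCommGroup A] [Fintype A] [DecidableEq A] [DecidableEq β] (φ : A → β)
    (hne : ∀ g : A, g ≠ 0 → g ≠ -g) (hφ : ∀ g h : A, g ≠ 0 → h ≠ 0 → (φ g = φ h ↔ g = h ∨ g = -h)) :
    2 * ((Finset.univ.filter (fun g : A => g ≠ 0)).image φ).card + 1 = Fintype.card A := by
  have h1 : (Finset.univ.filter (fun g : A => g ≠ 0)).card =
      2 * ((Finset.univ.filter (fun g : A => g ≠ 0)).image φ).card := by
    have h2 : (Finset.univ.filter (fun g : A => g ≠ 0)).card =
        ∑ ξ ∈ (Finset.univ.filter (fun g : A => g ≠ 0)).image φ, 2 := by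
      refine Finset.card_eq_sum_card_image φ _ |>.trans ?_
      refine Finset.sum_congr rfl fun ξ hξ => ?_
      obtain ⟨g, hg, rfl⟩ := Finset.mem_image.1 hξ
      have hg0 : g ≠ 0 := (Finset.mem_filter.1 hg).2
      have hcard : (Finset.filter (fun a : A => φ a = φ g) (Finset.univ.filter (fun g : A => g ≠ 0))) = {g, -g} := by
        ext a
        simp only [Finset.mem_filter, Finset.mem_univ, true_and, Finset.mem_insert, Finset.mem_singleton]
        constructor
        · rintro ⟨ha, he⟩
          exact (hφ a g ha hg0).1 he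
        · rintro (rfl | rfl)
          · exact ⟨hg0, rfl⟩
          · exact ⟨neg_ne_zero.2 hg0, (hφ (-g) g (neg_ne_zero.2 hg0) hg0).2 (Or.inr rfl)⟩
      rw [hcard, Finset.card_pair (hne g hg0)]
    rw [h2, Finset.sum_const, smul_eq_mul, mul_comm]
  have h3 : (Finset.univ.filter (fun g : A => g ≠ 0)).card + 1 = Fintype.card A := by
    have h4 : (Finset.univ.filter (fun g : A => g ≠ 0)) = Finset.univ.erase 0 := by
      ext a
      simp
    rw [h4, Finset.card_erase_add_one (Finset.mem_univ _), Finset.card_univ]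
  omega

variable {K : Type} [Field K] [DecidableEq K] {W : WeierstrassCurve K}

section fib

variable [W.IsShortNF] (G : AddSubgroup W.toAffine.Point) [Fintype G]

omit [W.IsShortNF] in
/-- in a group of odd order `2g = 0` only for `g = 0` -/
theorem two_G (hodd : Odd (Fintype.card G)) {g : W.toAffine.Point} (hg : g ∈ G) (h : g + g = 0) : g = 0 := by
  by_contra h0
  exact ne_neg_G G hodd hg h0 (eq_neg_of_add_eq_zero_left h)

omit [W.IsShortNF] in
/-- halves -/
theorem half_G (hodd : Odd (Fintype.card G)) {g : W.toAffine.Point} (hg : g ∈ G) : ∃ h ∈ G, h + h = g := by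
  obtain ⟨k, hk⟩ := hodd
  refine ⟨(k + 1) • g, G.nsmul_mem hg _, ?_⟩
  have h4 : Fintype.card G • (⟨g, hg⟩ : G) = 0 := card_nsmul_eq_zero
  have h3 := congrArg Subtype.val h4
  rw [AddSubgroup.coe_nsmul, AddSubgroup.coe_zero, hk] at h3
  have h3' : (2 * k + 1) • g = 0 := h3
  rw [← two_nsmul, ← mul_nsmul', show 2 * (k + 1) = (2 * k + 1) + 1 by ring, add_nsmul, h3', zero_add, one_nsmul]

/-- the polynomial with the fibre as roots -/
noncomputable def Fc (c : K) : K[X] := Ng G - C c * Mg G

omit [W.IsShortNF] in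
theorem Fc_ne (c : K) : Fc G c ≠ 0 ∧ (Fc G c).natDegree = 2 * (Xi G).card + 1 := by
  have h0 : (C c * Mg G).natDegree < (Ng G).natDegree := by
    rw [Ng_natDegree]
    have := natDegree_C_mul_le c (Mg G)
    rw [Mg_natDegree] at this
    omega
  have h1 : (C c * Mg G).degree < (Ng G).degree := degree_lt_degree h0
  have h2 : (Fc G c).degree = (Ng G).degree := by
    unfold Fc
    exact degree_sub_eq_left_of_degree_lt h1
  refine ⟨fun h => ?_, ?_⟩
  · rw [h, degree_zero] at h2
    exact (Ng_monic G).ne_zero (degree_eq_bot.1 h2.symm)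
  · rw [natDegree_eq_of_degree_eq h2, Ng_natDegree]

theorem Fc_root (h2 : (2 : K) ≠ 0) (hodd : Odd (Fintype.card G)) {P : W.toAffine.Point} (hP : P ∉ G) (c : K) :
    (Fc G c).eval (cx P) = 0 ↔ XG G P = c := by
  unfold Fc
  rw [eval_sub, eval_mul, eval_C, ← XG_val G h2 hodd hP, sub_eq_zero]
  exact mul_left_inj' (Mg_eval_ne G (notMem_Xi G hP))

omit [W.IsShortNF] in
theorem sub_roots (c : K) {S : Finset K} (hS : ∀ x ∈ S, (Fc G c).eval x = 0) : S ⊆ (Fc G c).roots.toFinset := by
  intro x hx
  rw [Multiset.mem_toFinset, mem_roots (Fc_ne G c).1]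
  exact hS x hx

theorem roots_card (hodd : Odd (Fintype.card G)) (c : K) : (Fc G c).roots.toFinset.card ≤ Fintype.card G := by
  obtain ⟨-, h2⟩ := Fc_ne G c
  rw [card_Xi G hodd, ← h2]
  exact (Multiset.toFinset_card_le _).trans (card_roots' _)

omit [Fintype G] in
theorem cx_T {T : W.toAffine.Point} (hT : T + T = 0) (hTG : T ∉ G) {g h : W.toAffine.Point} (hg : g ∈ G) (hh : h ∈ G) :
    cx (T + g) = cx (T + h) ↔ g = h ∨ g = -h := by
  have h1 : T + g ∉ G := fun h => hTG ((G.add_mem_cancel_right hg).1 h)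
  have h2 : T + h ∉ G := fun h' => hTG ((G.add_mem_cancel_right hh).1 h')
  have h3 : -T = T := (eq_neg_of_add_eq_zero_left hT).symm
  rw [cx_eq_iff (ne_of_notMem G h1) (ne_of_notMem G h2), add_right_inj, neg_add, h3, add_right_inj]

/-- the coordinates of `T + G` -/
noncomputable def ST (T : W.toAffine.Point) : Finset K := Finset.univ.image (fun g : G => cx (T + (g : W.toAffine.Point)))

theorem ST_card (hodd : Odd (Fintype.card G)) {T : W.toAffine.Point} (hT : T + T = 0) (hTG : T ∉ G) :
    2 * (ST G T).card = Fintype.card G + 1 := by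
  have h1 := card_im (fun g : G => cx (T + (g : W.toAffine.Point)))
    (fun g hg h => ne_neg_G G hodd g.2 (fun h' => hg (Subtype.ext h')) (congrArg Subtype.val h))
    (fun g h _ _ => by
      rw [cx_T G hT hTG g.2 h.2]
      constructor
      · rintro (h' | h')
        · exact Or.inl (Subtype.ext h')
        · exact Or.inr (Subtype.ext h')
      · rintro (h' | h')
        · exact Or.inl (congrArg Subtype.val h')
        · exact Or.inr (congrArg Subtype.val h'))
  have h2 : ST G T = insert (cx (T + ((0 : G) : W.toAffine.Point)))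
      ((Finset.univ.filter (fun g : G => g ≠ 0)).image (fun g : G => cx (T + (g : W.toAffine.Point)))) := by
    have h5 : (Finset.univ : Finset G) = insert 0 (Finset.univ.filter (fun g : G => g ≠ 0)) := by
      ext a
      simp only [Finset.mem_univ, Finset.mem_insert, Finset.mem_filter, true_and, true_iff]
      exact em _
    unfold ST
    conv_lhs => rw [h5, Finset.image_insert]
  rw [h2, Finset.card_insert_of_notMem]
  · omega
  · intro h
    obtain ⟨g, hg, he⟩ := Finset.mem_image.1 h
    have hg0 : g ≠ 0 := (Finset.mem_filter.1 hg).2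
    have he' : cx (T + (g : W.toAffine.Point)) = cx (T + ((0 : G) : W.toAffine.Point)) := he
    rw [cx_T G hT hTG g.2 (0 : G).2] at he'
    rcases he' with h' | h'
    · exact hg0 (Subtype.ext h')
    · apply hg0
      refine Subtype.ext (h'.trans ?_)
      rw [AddSubgroup.coe_zero, neg_zero]

/-- the three values at the points of order two are different -/
theorem T_inj (h2 : (2 : K) ≠ 0) (hodd : Odd (Fintype.card G)) {T T' : W.toAffine.Point} (hT : T + T = 0) (hT' : T' + T' = 0)
    (hTG : T ∉ G) (hTG' : T' ∉ G) (h : XG G T = XG G T') : T = T' := by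
  by_contra hne
  have hdis : Disjoint (ST G T) (ST G T') := by
    rw [Finset.disjoint_left]
    intro x hx hx'
    obtain ⟨g, -, hg⟩ := Finset.mem_image.1 hx
    obtain ⟨g', -, hg'⟩ := Finset.mem_image.1 hx'
    have h1 : T + (g : W.toAffine.Point) ∉ G := fun h => hTG ((G.add_mem_cancel_right g.2).1 h)
    have h3 : T' + (g' : W.toAffine.Point) ∉ G := fun h' => hTG' ((G.add_mem_cancel_right g'.2).1 h')
    have h4 : T + T' ∈ G := by
      rcases (cx_eq_iff (ne_of_notMem G h1) (ne_of_notMem G h3)).1 (hg.trans hg'.symm) with h5 | h5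
      · have h6 : T + T' = (g' : W.toAffine.Point) - g := by
          have : T = T' + (g' : W.toAffine.Point) - g := eq_sub_of_add_eq h5
          rw [this, show T' + (g' : W.toAffine.Point) - g + T' = (T' + T') + ((g' : W.toAffine.Point) - g) by abel, hT',
            zero_add]
        rw [h6]
        exact G.sub_mem g'.2 g.2
      · have h6 : T + T' = -(g' : W.toAffine.Point) - g := by
          have : T = -(T' + (g' : W.toAffine.Point)) - g := eq_sub_of_add_eq h5
          rw [this]
          abel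
        rw [h6]
        exact G.sub_mem (G.neg_mem g'.2) g.2
    have h7 := two_G G hodd h4 (by rw [show T + T' + (T + T') = (T + T) + (T' + T') by abel, hT, hT', add_zero])
    exact hne ((eq_neg_of_add_eq_zero_left h7).trans (eq_neg_of_add_eq_zero_left hT').symm)
  have hroot : ∀ x ∈ ST G T ∪ ST G T', (Fc G (XG G T)).eval x = 0 := by
    intro x hx
    rcases Finset.mem_union.1 hx with hx | hx
    · obtain ⟨g, -, hg⟩ := Finset.mem_image.1 hx
      have h1 : T + (g : W.toAffine.Point) ∉ G := fun h => hTG ((G.add_mem_cancel_right g.2).1 h)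
      rw [← hg, Fc_root G h2 hodd h1, XG_add G g.2]
    · obtain ⟨g, -, hg⟩ := Finset.mem_image.1 hx
      have h1 : T' + (g : W.toAffine.Point) ∉ G := fun h => hTG' ((G.add_mem_cancel_right g.2).1 h)
      rw [← hg, Fc_root G h2 hodd h1, XG_add G g.2, h]
  have h1 := Finset.card_le_card (sub_roots G _ hroot)
  rw [Finset.card_union_of_disjoint hdis] at h1
  have h3 := roots_card G hodd (XG G T)
  have h4 := ST_card G hodd hT hTG
  have h5 := ST_card G hodd hT' hTG'
  omega

private theorem fib_a (h2 : (2 : K) ≠ 0) (hodd : Odd (Fintype.card G)) {P P' : W.toAffine.Point} (hP : P ∉ G) (hP' : P' ∉ G)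
    (hPP : P + P ∉ G) (h : XG G P = XG G P') : P' - P ∈ G ∨ P' + P ∈ G := by
  have hPg : ∀ g ∈ G, P + g ∉ G := fun g hg h => hP ((G.add_mem_cancel_right hg).1 h)
  have hinj : Function.Injective (fun g : G => cx (P + (g : W.toAffine.Point))) := by
    intro g g' he
    rcases (cx_eq_iff (ne_of_notMem G (hPg g g.2)) (ne_of_notMem G (hPg g' g'.2))).1 he with h1 | h1
    · exact Subtype.ext (add_left_cancel h1)
    · exfalso
      apply hPP
      have h3 : P + P = -(g' : W.toAffine.Point) - g := by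
        have : P + P = P + (g : W.toAffine.Point) + P - g := by abel
        rw [this, h1]
        abel
      rw [h3]
      exact G.sub_mem (G.neg_mem g'.2) g.2
  have hroot : ∀ x ∈ ST G P, (Fc G (XG G P)).eval x = 0 := by
    intro x hx
    obtain ⟨g, -, hg⟩ := Finset.mem_image.1 hx
    rw [← hg, Fc_root G h2 hodd (hPg g g.2), XG_add G g.2]
  have h1 := sub_roots G _ hroot
  have h3 : ST G P = (Fc G (XG G P)).roots.toFinset := by
    refine Finset.eq_of_subset_of_card_le h1 ((roots_card G hodd _).trans ?_)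
    unfold ST
    rw [Finset.card_image_of_injective _ hinj, Finset.card_univ]
  have h4 : cx P' ∈ ST G P := by
    rw [h3, Multiset.mem_toFinset, mem_roots (Fc_ne G _).1]
    exact (Fc_root G h2 hodd hP' _).2 h.symm
  obtain ⟨g, -, hg⟩ := Finset.mem_image.1 h4
  rcases (cx_eq_iff (ne_of_notMem G (hPg g g.2)) (ne_of_notMem G hP')).1 hg with h5 | h5
  · left
    rw [← h5, add_sub_cancel_left]
    exact g.2
  · right
    have h6 : P' = -(P + (g : W.toAffine.Point)) := by rw [h5, neg_neg]
    rw [h6, neg_add, show -P + -(g : W.toAffine.Point) + P = -(g : W.toAffine.Point) by abel]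
    exact G.neg_mem g.2

/-- the fibres -/
theorem fib (h2 : (2 : K) ≠ 0) (hodd : Odd (Fintype.card G)) {P P' : W.toAffine.Point} (hP : P ∉ G) (hP' : P' ∉ G)
    (h : XG G P = XG G P') : P' - P ∈ G ∨ P' + P ∈ G := by
  by_cases hPP : P + P ∈ G
  · by_cases hPP' : P' + P' ∈ G
    · left
      obtain ⟨g, hg, hgg⟩ := half_G G hodd hPP
      obtain ⟨g', hg', hgg'⟩ := half_G G hodd hPP'
      have hT : (P - g) + (P - g) = 0 := by
        rw [show (P - g) + (P - g) = (P + P) - (g + g) by abel, hgg, sub_self]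
      have hT' : (P' - g') + (P' - g') = 0 := by
        rw [show (P' - g') + (P' - g') = (P' + P') - (g' + g') by abel, hgg', sub_self]
      have hTG : P - g ∉ G := by
        intro h1
        apply hP
        have := G.add_mem h1 hg
        rwa [sub_add_cancel] at this
      have hTG' : P' - g' ∉ G := by
        intro h1
        apply hP'
        have := G.add_mem h1 hg'
        rwa [sub_add_cancel] at this
      have e1 : XG G (P - g) = XG G P := by
        rw [sub_eq_add_neg]
        exact XG_add G (G.neg_mem hg)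
      have e2 : XG G (P' - g') = XG G P' := by
        rw [sub_eq_add_neg]
        exact XG_add G (G.neg_mem hg')
      have h3 := T_inj G h2 hodd hT hT' hTG hTG' (by rw [e1, e2, h])
      have h4 : P' - P = g' - g := by
        have : P' = P - g + g' := by rw [h3, sub_add_cancel]
        rw [this]
        abel
      rw [h4]
      exact G.sub_mem hg' hg
    · rcases fib_a G h2 hodd hP' hP hPP' h.symm with h1 | h1
      · left
        rw [← neg_sub]
        exact G.neg_mem h1
      · right
        rw [add_comm]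
        exact h1
  · exact fib_a G h2 hodd hP hP' hPP h

/-- the equation -/
theorem pt_eq [IsAlgClosed K] [W.IsElliptic] (h2 : (2 : K) ≠ 0) (hodd : Odd (Fintype.card G)) {P : W.toAffine.Point}
    (hP : P ∉ G) : YG G P ^ 2 = XG G P ^ 3 + aq G * XG G P + bq G := by
  have e1 := XG_val G h2 hodd hP
  have e2 := YG_val G h2 hodd hP
  have e3 := eq_short (ne_of_notMem G hP)
  have e4 := congrArg (eval (cx P)) (quo_eq G h2 hodd)
  simp only [eval_add, eval_mul, eval_pow, eval_C, fW_eval] at e4
  rw [← e1, ← e3] at e4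
  have hM := Mg_eval_ne G (notMem_Xi G hP)
  refine mul_right_cancel₀ (pow_ne_zero 4 hM) ?_
  linear_combination e4 + (YG G P * (Mg G).eval (cx P) ^ 2 + cy P * (Lg G).eval (cx P)) * e2

omit [DecidableEq K] in
private theorem three_roots [IsAlgClosed K] {a b : K} (h2 : (2 : K) ≠ 0) (hd : 4 * a ^ 3 + 27 * b ^ 2 ≠ 0) :
    ∃ x y z : K, x ≠ y ∧ x ≠ z ∧ y ≠ z ∧ x ^ 3 + a * x + b = 0 ∧ y ^ 3 + a * y + b = 0 ∧ z ^ 3 + a * z + b = 0 := by
  obtain ⟨x, hx⟩ := IsAlgClosed.exists_root (X ^ 3 + C a * X + C b : K[X]) (by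
    have : (X ^ 3 + C a * X + C b : K[X]).degree = 3 := by compute_degree!
    rw [this]
    norm_num)
  have hx' : x ^ 3 + a * x + b = 0 := by
    simpa using hx
  obtain ⟨s, hs⟩ := IsAlgClosed.exists_pow_nat_eq (-3 * x ^ 2 - 4 * a) two_pos
  have hb : b = -(x ^ 3) - a * x := by linear_combination hx'
  have hy : ((-x + s) / 2) * 2 = -x + s := div_mul_cancel₀ _ h2
  have hz : ((-x - s) / 2) * 2 = -x - s := div_mul_cancel₀ _ h2
  obtain ⟨y, hy'⟩ : ∃ y, y = (-x + s) / 2 := ⟨_, rfl⟩
  obtain ⟨z, hz'⟩ : ∃ z, z = (-x - s) / 2 := ⟨_, rfl⟩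
  rw [← hy'] at hy
  rw [← hz'] at hz
  have h4 : (4 : K) ≠ 0 := by
    have : (4 : K) = 2 * 2 := by norm_num
    rw [this]
    exact mul_ne_zero h2 h2
  have qy : y ^ 2 + x * y + x ^ 2 + a = 0 := by
    refine (mul_eq_zero.1 (?_ : (4 : K) * (y ^ 2 + x * y + x ^ 2 + a) = 0)).resolve_left h4
    linear_combination (2 * y + x + s) * hy + hs
  have qz : z ^ 2 + x * z + x ^ 2 + a = 0 := by
    refine (mul_eq_zero.1 (?_ : (4 : K) * (z ^ 2 + x * z + x ^ 2 + a) = 0)).resolve_left h4
    linear_combination (2 * z + x - s) * hz + hs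
  refine ⟨x, y, z, ?_, ?_, ?_, hx', ?_, ?_⟩
  · rintro rfl
    apply hd
    have ha : a = -3 * x ^ 2 := by linear_combination qy
    rw [hb, ha]
    ring
  · rintro rfl
    apply hd
    have ha : a = -3 * x ^ 2 := by linear_combination qz
    rw [hb, ha]
    ring
  · rintro rfl
    apply hd
    have hxy : x = -2 * y := by
      refine mul_left_cancel₀ h2 ?_
      linear_combination hy + hz
    have ha : a = -3 * y ^ 2 := by
      rw [hxy] at qy
      linear_combination qy
    rw [hb, hxy, ha]
    ring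
  · linear_combination (y - x) * qy + hx'
  · linear_combination (z - x) * qz + hx'

omit [DecidableEq K] in
private theorem disc_three {a b x y z : K} (hxy : x ≠ y) (hxz : x ≠ z) (hyz : y ≠ z) (hx : x ^ 3 + a * x + b = 0)
    (hy : y ^ 3 + a * y + b = 0) (hz : z ^ 3 + a * z + b = 0) : 4 * a ^ 3 + 27 * b ^ 2 ≠ 0 := by
  have h1 : x ^ 2 + x * y + y ^ 2 + a = 0 :=
    (mul_eq_zero.1 (by linear_combination hx - hy : (x - y) * (x ^ 2 + x * y + y ^ 2 + a) = 0)).resolve_left
      (sub_ne_zero.2 hxy)
  have h3 : x ^ 2 + x * z + z ^ 2 + a = 0 :=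
    (mul_eq_zero.1 (by linear_combination hx - hz : (x - z) * (x ^ 2 + x * z + z ^ 2 + a) = 0)).resolve_left
      (sub_ne_zero.2 hxz)
  have h4 : x + y + z = 0 :=
    (mul_eq_zero.1 (by linear_combination h1 - h3 : (y - z) * (x + y + z) = 0)).resolve_left (sub_ne_zero.2 hyz)
  have ez : z = -x - y := by linear_combination h4
  have ea : a = -(x ^ 2 + x * y + y ^ 2) := by linear_combination h1
  have eb : b = x * y * (x + y) := by
    rw [ea] at hx
    linear_combination hx
  have e : 4 * a ^ 3 + 27 * b ^ 2 = -((x - y) * (x - z) * (y - z)) ^ 2 := by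
    rw [eb, ea, ez]
    ring
  rw [e]
  exact neg_ne_zero.2 (pow_ne_zero 2 (mul_ne_zero (mul_ne_zero (sub_ne_zero.2 hxy) (sub_ne_zero.2 hxz)) (sub_ne_zero.2 hyz)))

/-- the quotient is not singular -/
theorem disc_q [IsAlgClosed K] [W.IsElliptic] (h2 : (2 : K) ≠ 0) (hodd : Odd (Fintype.card G)) :
    4 * aq G ^ 3 + 27 * bq G ^ 2 ≠ 0 := by
  have hd : 4 * W.a₄ ^ 3 + 27 * W.a₆ ^ 2 ≠ 0 := by
    intro h
    have h1 : W.Δ ≠ 0 := W.isUnit_Δ.ne_zero
    rw [Δ_of_isShortNF, h, mul_zero] at h1
    exact h1 rfl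
  have hT : ∀ e : K, e ^ 3 + W.a₄ * e + W.a₆ = 0 → ∃ T : W.toAffine.Point, T + T = 0 ∧ T ∉ G ∧ cx T = e ∧
      XG G T ^ 3 + aq G * XG G T + bq G = 0 := by
    intro e he
    obtain ⟨T, hT0, hTe⟩ := exists_pt W e
    have hy : cy T = 0 := by
      have := eq_short hT0
      rw [hTe, he] at this
      exact pow_eq_zero_iff two_ne_zero |>.1 this
    have hTT : T + T = 0 := by
      have := (two_nsmul_eq_zero_iff h2 hT0).2 hy
      rwa [two_nsmul] at this
    have hTG : T ∉ G := fun h => hT0 (two_G G hodd h hTT)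
    have e2 := YG_val G h2 hodd hTG
    rw [hy, zero_mul] at e2
    have e3 : YG G T = 0 := (mul_eq_zero.1 e2).resolve_right (pow_ne_zero 2 (Mg_eval_ne G (notMem_Xi G hTG)))
    have e4 := pt_eq G h2 hodd hTG
    rw [e3] at e4
    exact ⟨T, hTT, hTG, hTe, by linear_combination -e4⟩
  obtain ⟨x, y, z, hxy, hxz, hyz, hx, hy, hz⟩ := three_roots h2 hd
  obtain ⟨A, a1, a2, a3, a4⟩ := hT x hx
  obtain ⟨B, b1, b2, b3, b4⟩ := hT y hy
  obtain ⟨D, c1, c2, c3, c4⟩ := hT z hz
  refine disc_three (x := XG G A) (y := XG G B) (z := XG G D) ?_ ?_ ?_ a4 b4 c4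
  · intro h
    exact hxy (by rw [← a3, ← b3, T_inj G h2 hodd a1 b1 a2 b2 h])
  · intro h
    exact hxz (by rw [← a3, ← c3, T_inj G h2 hodd a1 c1 a2 c2 h])
  · intro h
    exact hyz (by rw [← b3, ← c3, T_inj G h2 hodd b1 c1 b2 c2 h])

end fib

end Pool.Agent.H98.NV
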