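import Pool.Agent.H98.NV.V3

/-!
# NI2, chapter V, file 4: the homomorphism to the quotient

For `P + Q + S = 0` the points `P`, `Q`, `S` are collinear: `d(P,Q) + d(Q,S) + d(S,P) = 0`, `d(u,v) = x_u y_v - x_v y_u`. Sum over the triples `P + g`, `Q + h`, `S - g - h`: the same
relation for `XG`, `YG`. So for `P` outside a finite set `π(P + Q) = π P + π Q`, hence always.
-/

set_option autoImplicit false

namespace Pool.Agent.H98.NV

open WeierstrassCurve Polynomial Pool.Agent.H27.SU Pool.Agent.H58.NT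

/-- a map which is additive outside finite sets is additive -/
theorem add_of_generic {A B : Type} [AddCommGroup A] [AddCommGroup B] [Infinite A] (π : A → B)
    (h : ∀ Q, {P | π (P + Q) ≠ π P + π Q}.Finite) (P Q : A) : π (P + Q) = π P + π Q := by
  have h1 : {R | π (R + Q + P) ≠ π (R + Q) + π P}.Finite := by
    have := (h P).preimage (f := fun R => R + Q) (fun a _ b _ hab => add_right_cancel hab)
    exact this
  obtain ⟨R, hR⟩ := (((h (P + Q)).union h1).union (h Q)).infinite_compl.nonempty
  rw [Set.mem_compl_iff, Set.mem_union, Set.mem_union, not_or, not_or] at hR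
  obtain ⟨⟨r1, r2⟩, r3⟩ := hR
  have r1' : π (R + (P + Q)) = π R + π (P + Q) := not_not.1 r1
  have r2' : π (R + Q + P) = π (R + Q) + π P := not_not.1 r2
  have r3' : π (R + Q) = π R + π Q := not_not.1 r3
  have e : R + (P + Q) = R + Q + P := by abel
  rw [e, r2', r3'] at r1'
  have : π R + (π P + π Q) = π R + π (P + Q) := by
    rw [← r1']
    abel
  exact (add_left_cancel this).symm

variable {K : Type} [Field K] [DecidableEq K] {W : WeierstrassCurve K}

/-- collinear points -/
theorem col [W.IsShortNF] {u v w : W.toAffine.Point} (hu : u ≠ 0) (hv : v ≠ 0) (hw : w ≠ 0) (h : u + v + w = 0) :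
    (cx u * cy v - cx v * cy u) + (cx v * cy w - cx w * cy v) + (cx w * cy u - cx u * cy w) = 0 := by
  by_cases hx : cx u = cx v
  · rcases (cx_eq_iff hu hv).1 hx with rfl | rfl
    · ring
    · exfalso
      rw [neg_add_cancel, zero_add] at h
      exact hw h
  · obtain ⟨-, e2, e3⟩ := coord_add hu hv hx
    have hw' : w = -(u + v) := eq_neg_of_add_eq_zero_right h
    have f1 : cx w = cx (u + v) := by rw [hw', cx_neg]
    have f2 : cy w = -cy (u + v) := by rw [hw', cy_neg]
    rw [← f1] at e2 e3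
    have hd : cx u - cx v ≠ 0 := sub_ne_zero.2 hx
    obtain ⟨l, hl⟩ : ∃ l, l = (cy u - cy v) / (cx u - cx v) := ⟨_, rfl⟩
    have hl' : l * (cx u - cx v) = cy u - cy v := by rw [hl, div_mul_cancel₀ _ hd]
    rw [← hl] at e3
    rw [f2, e3]
    linear_combination (cx u - cx w) * hl'

section sums

variable [W.IsShortNF] (G : AddSubgroup W.toAffine.Point) [Fintype G]

omit [W.IsShortNF] in
private theorem dsum (P Q : W.toAffine.Point) :
    ∑ g : G, ∑ h : G, (cx (P + (g : W.toAffine.Point)) * cy (Q + (h : W.toAffine.Point)) -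
      cx (Q + (h : W.toAffine.Point)) * cy (P + (g : W.toAffine.Point))) =
      (∑ g : G, cx (P + (g : W.toAffine.Point))) * YG G Q - (∑ g : G, cx (Q + (g : W.toAffine.Point))) * YG G P := by
  unfold YG
  rw [Finset.sum_mul_sum, Finset.sum_mul_sum]
  simp only [Finset.sum_sub_distrib]
  congr 1
  exact Finset.sum_comm

/-- the images of collinear points are collinear -/
theorem col_G {P Q S : W.toAffine.Point} (hP : P ∉ G) (hQ : Q ∉ G) (hS : S ∉ G) (h : P + Q + S = 0) :
    (XG G P * YG G Q - XG G Q * YG G P) + (XG G Q * YG G S - XG G S * YG G Q) +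
      (XG G S * YG G P - XG G P * YG G S) = 0 := by
  have hPg : ∀ g ∈ G, P + g ≠ 0 := fun g hg h => ne_of_notMem G (fun h => hP ((G.add_mem_cancel_right hg).1 h)) h
  have hQg : ∀ g ∈ G, Q + g ≠ 0 := fun g hg h => ne_of_notMem G (fun h => hQ ((G.add_mem_cancel_right hg).1 h)) h
  have hSg : ∀ g ∈ G, S + g ≠ 0 := fun g hg h => ne_of_notMem G (fun h => hS ((G.add_mem_cancel_right hg).1 h)) h
  have h1 : ∑ g : G, ∑ h : G, ((cx (P + (g : W.toAffine.Point)) * cy (Q + (h : W.toAffine.Point)) -
      cx (Q + (h : W.toAffine.Point)) * cy (P + (g : W.toAffine.Point))) +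
      (cx (Q + (h : W.toAffine.Point)) * cy (S + ((-g - h : G) : W.toAffine.Point)) -
        cx (S + ((-g - h : G) : W.toAffine.Point)) * cy (Q + (h : W.toAffine.Point))) +
      (cx (S + ((-g - h : G) : W.toAffine.Point)) * cy (P + (g : W.toAffine.Point)) -
        cx (P + (g : W.toAffine.Point)) * cy (S + ((-g - h : G) : W.toAffine.Point)))) = 0 := by
    refine Finset.sum_eq_zero fun g _ => Finset.sum_eq_zero fun k _ => ?_
    refine col (hPg g g.2) (hQg k k.2) (hSg _ (-g - k : G).2) ?_
    rw [AddSubgroup.coe_sub, AddSubgroup.coe_neg,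
      show P + (g : W.toAffine.Point) + (Q + (k : W.toAffine.Point)) + (S + (-(g : W.toAffine.Point) - k)) = P + Q + S by
        abel, h]
  simp only [Finset.sum_add_distrib] at h1
  have h3 : ∑ g : G, ∑ h : G, (cx (Q + (h : W.toAffine.Point)) * cy (S + ((-g - h : G) : W.toAffine.Point)) -
        cx (S + ((-g - h : G) : W.toAffine.Point)) * cy (Q + (h : W.toAffine.Point))) =
      ∑ h : G, ∑ k : G, (cx (Q + (h : W.toAffine.Point)) * cy (S + (k : W.toAffine.Point)) -
        cx (S + (k : W.toAffine.Point)) * cy (Q + (h : W.toAffine.Point))) := by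
    rw [Finset.sum_comm]
    refine Finset.sum_congr rfl fun k _ => ?_
    exact Fintype.sum_equiv ((Equiv.neg G).trans (Equiv.subRight k)) _ _ fun g => rfl
  have h4 : ∑ g : G, ∑ h : G, (cx (S + ((-g - h : G) : W.toAffine.Point)) * cy (P + (g : W.toAffine.Point)) -
        cx (P + (g : W.toAffine.Point)) * cy (S + ((-g - h : G) : W.toAffine.Point))) =
      ∑ k : G, ∑ g : G, (cx (S + (k : W.toAffine.Point)) * cy (P + (g : W.toAffine.Point)) -
        cx (P + (g : W.toAffine.Point)) * cy (S + (k : W.toAffine.Point))) := by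
    rw [Finset.sum_comm (γ := G) (α := G) (s := Finset.univ) (t := Finset.univ) (f := fun k g =>
      (cx (S + (k : W.toAffine.Point)) * cy (P + (g : W.toAffine.Point)) -
        cx (P + (g : W.toAffine.Point)) * cy (S + (k : W.toAffine.Point))))]
    refine Finset.sum_congr rfl fun g _ => ?_
    exact Fintype.sum_equiv (Equiv.subLeft (-g)) _ _ fun h => rfl
  rw [h3, h4, dsum, dsum, dsum] at h1
  unfold XG
  linear_combination h1

end sums

section quo

variable [W.IsShortNF] (G : AddSubgroup W.toAffine.Point) [Fintype G]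

/-- the quotient curve -/
noncomputable def Wq : WeierstrassCurve K := ⟨0, 0, 0, aq G, bq G⟩

instance : (Wq G).IsShortNF where
  a₁ := rfl
  a₂ := rfl
  a₃ := rfl

theorem Wq_elliptic [IsAlgClosed K] [W.IsElliptic] (h2 : (2 : K) ≠ 0) (hodd : Odd (Fintype.card G)) : (Wq G).IsElliptic := by
  refine ⟨?_⟩
  rw [Δ_of_isShortNF, isUnit_iff_ne_zero]
  refine mul_ne_zero ?_ (disc_q G h2 hodd)
  have : (-16 : K) = -(2 ^ 4) := by norm_num
  rw [this]
  exact neg_ne_zero.2 (pow_ne_zero 4 h2)

/-- the points of the quotient -/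
theorem exists_pi [IsAlgClosed K] [W.IsElliptic] (h2 : (2 : K) ≠ 0) (hodd : Odd (Fintype.card G)) :
    ∃ π : W.toAffine.Point → (Wq G).toAffine.Point, (∀ P, P ∈ G → π P = 0) ∧
      (∀ P, P ∉ G → π P ≠ 0 ∧ cx (π P) = XG G P ∧ cy (π P) = YG G P) := by
  have hE := Wq_elliptic G h2 hodd
  have h : ∀ P : W.toAffine.Point, ∃ Q : (Wq G).toAffine.Point, (P ∈ G → Q = 0) ∧
      (P ∉ G → Q ≠ 0 ∧ cx Q = XG G P ∧ cy Q = YG G P) := by
    intro P
    by_cases hP : P ∈ G
    · exact ⟨0, fun _ => rfl, fun h => absurd hP h⟩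
    · have h1 : (Wq G).toAffine.Equation (XG G P) (YG G P) := by
        rw [Affine.equation_iff]
        simp only [a₁_of_isShortNF, a₂_of_isShortNF, a₃_of_isShortNF]
        have := pt_eq G h2 hodd hP
        show YG G P ^ 2 + 0 * XG G P * YG G P + 0 * YG G P = XG G P ^ 3 + 0 * XG G P ^ 2 + aq G * XG G P + bq G
        linear_combination this
      refine ⟨Affine.Point.some _ _ ((Affine.equation_iff_nonsingular).1 h1), fun h => absurd h hP, fun _ => ⟨?_, rfl, rfl⟩⟩
      exact Affine.Point.some_ne_zero _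
  choose π hπ using h
  exact ⟨π, fun P => (hπ P).1, fun P => (hπ P).2⟩

end quo

end Pool.Agent.H98.NV
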