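import Pool.Agent.H98.NV.V4
import Pool.Agent.H58.NT.Bun

/-!
# NI2, chapter V, file 5: the quotient by a finite subgroup of odd order

`exists_quo`: for a finite subgroup `G` of odd order of the points of `W` there is a homomorphism `π` to the points of `W' = Wq G`, with kernel `G`, surjective and algebraic of degree `|G|`;
its coordinates are `XG`, `YG`.
-/

set_option autoImplicit false

namespace Pool.Agent.H98.NV

open WeierstrassCurve Polynomial Pool.Agent.H27.SU Pool.Agent.H58.NT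

variable {K : Type} [Field K] [DecidableEq K] {W : WeierstrassCurve K}

section quo

variable [IsAlgClosed K] [W.IsShortNF] [W.IsElliptic] (G : AddSubgroup W.toAffine.Point) [Fintype G]

omit [IsAlgClosed K] [W.IsShortNF] [W.IsElliptic] in
/-- equal images -/
theorem pi_eq {π : W.toAffine.Point → (Wq G).toAffine.Point}
    (h0 : ∀ P, P ∈ G → π P = 0) (h1 : ∀ P, P ∉ G → π P ≠ 0 ∧ cx (π P) = XG G P ∧ cy (π P) = YG G P)
    {P Q : W.toAffine.Point} (h : P - Q ∈ G) : π P = π Q := by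
  by_cases hQ : Q ∈ G
  · have hP : P ∈ G := by
      have := G.add_mem h hQ
      rwa [sub_add_cancel] at this
    rw [h0 P hP, h0 Q hQ]
  · have hP : P ∉ G := by
      intro hP
      apply hQ
      have := G.sub_mem hP h
      rwa [sub_sub_cancel] at this
    obtain ⟨a1, a2, a3⟩ := h1 P hP
    obtain ⟨b1, b2, b3⟩ := h1 Q hQ
    have e : P = Q + (P - Q) := (add_sub_cancel Q P).symm
    refine ext_coord a1 b1 ?_ ?_
    · rw [a2, b2, e, XG_add G h]
    · rw [a3, b3, e, YG_add G h]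

omit [IsAlgClosed K] [W.IsElliptic] in
theorem pi_neg {π : W.toAffine.Point → (Wq G).toAffine.Point}
    (h0 : ∀ P, P ∈ G → π P = 0) (h1 : ∀ P, P ∉ G → π P ≠ 0 ∧ cx (π P) = XG G P ∧ cy (π P) = YG G P)
    (P : W.toAffine.Point) : π (-P) = -π P := by
  by_cases hP : P ∈ G
  · rw [h0 P hP, h0 _ (G.neg_mem hP), neg_zero]
  · have hP' : -P ∉ G := fun h => hP (by have := G.neg_mem h; rwa [neg_neg] at this)
    obtain ⟨a1, a2, a3⟩ := h1 P hP
    obtain ⟨b1, b2, b3⟩ := h1 _ hP'
    refine ext_coord b1 (neg_ne_zero.2 a1) ?_ ?_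
    · rw [b2, cx_neg, a2, XG_neg]
    · rw [b3, cy_neg, a3, YG_neg]

/-- additivity for points in general position -/
theorem pi_add (h2 : (2 : K) ≠ 0) (hodd : Odd (Fintype.card G)) {π : W.toAffine.Point → (Wq G).toAffine.Point}
    (h0 : ∀ P, P ∈ G → π P = 0) (h1 : ∀ P, P ∉ G → π P ≠ 0 ∧ cx (π P) = XG G P ∧ cy (π P) = YG G P)
    {P Q : W.toAffine.Point} (hP : P ∉ G) (hQ : Q ∉ G) (hPQ : P + Q ∉ G) (hPQ' : Q - P ∉ G)
    (h3 : P + P + Q ∉ G) (h4 : P + (Q + Q) ∉ G) : π (P + Q) = π P + π Q := by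
  obtain ⟨S, hS⟩ : ∃ S, S = -(P + Q) := ⟨_, rfl⟩
  have hSG : S ∉ G := by
    intro h
    apply hPQ
    have := G.neg_mem h
    rwa [hS, neg_neg] at this
  obtain ⟨a1, a2, a3⟩ := h1 P hP
  obtain ⟨b1, b2, b3⟩ := h1 Q hQ
  obtain ⟨c1, c2, c3⟩ := h1 S hSG
  have hcol := col_G G hP hQ hSG (by rw [hS]; abel)
  have n1 : XG G P ≠ XG G Q := by
    intro h
    rcases fib G h2 hodd hP hQ h with h5 | h5
    · exact hPQ' h5
    · exact hPQ (by rwa [add_comm])
  have n2 : XG G S ≠ XG G P := by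
    intro h
    rcases fib G h2 hodd hSG hP h with h5 | h5
    · apply h3
      rw [hS] at h5
      rwa [show P - -(P + Q) = P + P + Q by abel] at h5
    · apply hQ
      rw [hS, show P + -(P + Q) = -Q by abel] at h5
      have := G.neg_mem h5
      rwa [neg_neg] at this
  have n3 : XG G S ≠ XG G Q := by
    intro h
    rcases fib G h2 hodd hSG hQ h with h5 | h5
    · apply h4
      rw [hS] at h5
      rwa [show Q - -(P + Q) = P + (Q + Q) by abel] at h5
    · apply hP
      rw [hS, show Q + -(P + Q) = -P by abel] at h5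
      have := G.neg_mem h5
      rwa [neg_neg] at this
  obtain ⟨d1, d2, d3⟩ := coord_add a1 b1 (by rw [a2, b2]; exact n1)
  rw [a2, a3, b2, b3] at d2
  rw [a2, a3, b2, b3] at d3
  have eP := pt_eq G h2 hodd hP
  have eQ := pt_eq G h2 hodd hQ
  have eS := pt_eq G h2 hodd hSG
  have hd : XG G P - XG G Q ≠ 0 := sub_ne_zero.2 n1
  obtain ⟨l, hl⟩ : ∃ l, l = (YG G P - YG G Q) / (XG G P - XG G Q) := ⟨_, rfl⟩
  have hl' : l * (XG G P - XG G Q) = YG G P - YG G Q := by rw [hl, div_mul_cancel₀ _ hd]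
  rw [← hl] at d2 d3
  -- the line
  have hline : YG G S = l * (XG G S - XG G P) + YG G P := by
    refine mul_right_cancel₀ hd ?_
    linear_combination (-1 : K) * hcol + (XG G P - XG G S) * hl'
  have hroot : (XG G S - XG G P) * (XG G S - XG G Q) * (XG G S - (l ^ 2 - XG G P - XG G Q)) = 0 := by
    refine mul_right_cancel₀ hd ?_
    rw [hline] at eS
    have hYQ : YG G Q = l * (XG G Q - XG G P) + YG G P := by linear_combination hl'
    rw [hYQ] at eQ
    linear_combination (XG G Q - XG G P) * eS + (XG G S - XG G Q) * eP + (XG G P - XG G S) * eQ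
  have hXS : XG G S = l ^ 2 - XG G P - XG G Q := by
    rcases mul_eq_zero.1 hroot with h5 | h5
    · rcases mul_eq_zero.1 h5 with h6 | h6
      · exact absurd (sub_eq_zero.1 h6) n2
      · exact absurd (sub_eq_zero.1 h6) n3
    · exact sub_eq_zero.1 h5
  have hneg : π (P + Q) = -π S := by
    rw [← pi_neg G h0 h1, hS, neg_neg]
  rw [hneg]
  refine ext_coord (neg_ne_zero.2 c1) d1 ?_ ?_
  · rw [cx_neg, c2, d2, hXS]
  · rw [cy_neg, c3, d3, hline, d2, hXS]

/-- points with bounded double -/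
theorem fin_double (h2 : (2 : K) ≠ 0) (Q : W.toAffine.Point) : {P : W.toAffine.Point | P + P + Q ∈ G}.Finite := by
  have hT : {P : W.toAffine.Point | P + P = 0}.Finite := by
    refine ((Set.finite_singleton (0 : W.toAffine.Point)).union (fin_of_root (W := W) (fW_monic W).1.ne_zero)).subset ?_
    intro P hP
    by_cases hP0 : P = 0
    · exact Or.inl hP0
    · right
      have hP' : P + P = 0 := hP
      rw [← two_nsmul] at hP'
      have hy := (two_nsmul_eq_zero_iff h2 hP0).1 hP'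
      show (fW W).eval (cx P) = 0
      rw [fW_eval, ← eq_short hP0, hy]
      ring
  have hfib : ∀ R : W.toAffine.Point, {P : W.toAffine.Point | P + P = R}.Finite := by
    intro R
    by_cases hR : ∃ P0 : W.toAffine.Point, P0 + P0 = R
    · obtain ⟨P0, hP0⟩ := hR
      have := hT.preimage (f := fun P => P - P0) (fun a _ b _ hab => sub_left_injective hab)
      refine this.subset fun P hP => ?_
      have hP' : P + P = R := hP
      show P - P0 + (P - P0) = 0
      rw [show P - P0 + (P - P0) = (P + P) - (P0 + P0) by abel, hP', hP0, sub_self]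
    · refine Set.finite_empty.subset fun P hP => hR ⟨P, hP⟩
  have hfin : (⋃ g : G, {P : W.toAffine.Point | P + P = (g : W.toAffine.Point) - Q}).Finite :=
    Set.finite_iUnion fun g => hfib _
  refine hfin.subset fun P hP => ?_
  have hP' : P + P + Q ∈ G := hP
  exact Set.mem_iUnion.2 ⟨⟨_, hP'⟩, by show P + P = P + P + Q - Q; rw [add_sub_cancel_right]⟩

/-- the homomorphism -/
theorem exists_pi_hom (h2 : (2 : K) ≠ 0) (hodd : Odd (Fintype.card G)) :
    ∃ π : W.toAffine.Point →+ (Wq G).toAffine.Point, (∀ P, P ∈ G → π P = 0) ∧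
      (∀ P, P ∉ G → π P ≠ 0 ∧ cx (π P) = XG G P ∧ cy (π P) = YG G P) := by
  obtain ⟨π, h0, h1⟩ := exists_pi G h2 hodd
  have hinf : Infinite W.toAffine.Point := pt_infinite W
  have hG : (G : Set W.toAffine.Point).Finite := Set.toFinite _
  have hgen : ∀ Q, {P | π (P + Q) ≠ π P + π Q}.Finite := by
    intro Q
    by_cases hQ : Q ∈ G
    · refine Set.finite_empty.subset fun P hP => ?_
      apply hP
      rw [h0 Q hQ, add_zero]
      exact pi_eq G h0 h1 (by rwa [add_sub_cancel_left])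
    · have s1 : {P : W.toAffine.Point | P + Q ∈ G}.Finite :=
        hG.preimage (f := fun P => P + Q) (fun a _ b _ hab => add_right_cancel hab)
      have s2 : {P : W.toAffine.Point | Q - P ∈ G}.Finite :=
        hG.preimage (f := fun P => Q - P) (fun a _ b _ hab => sub_right_injective hab)
      have s3 := fin_double G h2 Q
      have s4 : {P : W.toAffine.Point | P + (Q + Q) ∈ G}.Finite :=
        hG.preimage (f := fun P => P + (Q + Q)) (fun a _ b _ hab => add_right_cancel hab)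
      refine (hG.union (s1.union (s2.union (s3.union s4)))).subset fun P hP => ?_
      by_contra hn
      simp only [Set.mem_union, not_or] at hn
      obtain ⟨n1, n2, n3, n4, n5⟩ := hn
      exact hP (pi_add G h2 hodd h0 h1 n1 hQ n2 n3 n4 n5)
  exact ⟨⟨⟨π, h0 0 G.zero_mem⟩, add_of_generic π hgen⟩, h0, h1⟩

/-- the quotient by a finite subgroup of odd order -/
theorem exists_quo (h2 : (2 : K) ≠ 0) (hodd : Odd (Fintype.card G)) :
    (Wq G).IsElliptic ∧ ∃ π : W.toAffine.Point →+ (Wq G).toAffine.Point, π.ker = G ∧ Function.Surjective π ∧ IsA π ∧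
      dg π = Fintype.card G ∧ ∀ P, P ∉ G → cx (π P) = XG G P ∧ cy (π P) = YG G P := by
  have hE := Wq_elliptic G h2 hodd
  refine ⟨hE, ?_⟩
  obtain ⟨π, h0, h1⟩ := exists_pi_hom G h2 hodd
  have hfin : {P : W.toAffine.Point | ¬ (P ≠ 0 ∧ (Mg G).eval (cx P) ≠ 0 ∧ (Mg G ^ 2).eval (cx P) ≠ 0 ∧ π P ≠ 0 ∧
    cx (π P) = (Ng G).eval (cx P) / (Mg G).eval (cx P) ∧
    cy (π P) = cy P * ((Lg G).eval (cx P) / (Mg G ^ 2).eval (cx P)))}.Finite := by
    refine (Set.toFinite (G : Set W.toAffine.Point)).subset fun P hP => ?_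
    by_contra hPG
    have hPG' : P ∉ G := hPG
    have hM := Mg_eval_ne G (notMem_Xi G hPG')
    have hM2 : (Mg G ^ 2).eval (cx P) ≠ 0 := by
      rw [eval_pow]
      exact pow_ne_zero 2 hM
    obtain ⟨a1, a2, a3⟩ := h1 P hPG'
    refine hP ⟨ne_of_notMem G hPG', hM, hM2, a1, ?_, ?_⟩
    · rw [a2, eq_div_iff hM, XG_val G h2 hodd hPG']
    · rw [a3, ← mul_div_assoc, eq_div_iff hM2, eval_pow, YG_val G h2 hodd hPG']
  let a : AD W (Wq G) π := ⟨Ng G, Mg G, Lg G, Mg G ^ 2, Ng_monic G, (Mg_monic G).ne_zero,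
    pow_ne_zero 2 (Mg_monic G).ne_zero, by rw [Ng_natDegree, Mg_natDegree]; exact Nat.lt_succ_self _,
    Ng_Mg_coprime G h2 hodd, hfin⟩
  refine ⟨π, ?_, ?_, ⟨a⟩, ?_, fun P hP => (h1 P hP).2⟩
  · ext P
    rw [AddMonoidHom.mem_ker]
    constructor
    · intro h
      by_contra hP
      exact (h1 P hP).1 h
    · exact h0 P
  · intro R
    by_cases hR : R = 0
    · exact ⟨0, by rw [map_zero, hR]⟩
    obtain ⟨hF0, hFd⟩ := Fc_ne G (cx R)
    have hdeg : (Fc G (cx R)).degree ≠ 0 := by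
      rw [degree_eq_natDegree hF0, hFd]
      intro h
      have : 2 * (Xi G).card + 1 = 0 := by exact_mod_cast h
      omega
    obtain ⟨x, hx⟩ := IsAlgClosed.exists_root _ hdeg
    have hx' : (Fc G (cx R)).eval x = 0 := hx
    have hxX : x ∉ Xi G := by
      intro h
      apply Ng_eval_ne G h2 hodd h
      unfold Fc at hx'
      rw [eval_sub, eval_mul, Mg_eval_zero G h, mul_zero, sub_zero] at hx'
      exact hx'
    obtain ⟨P, hP0, hPx⟩ := exists_pt W x
    have hPG : P ∉ G := fun h => hxX ((mem_Xi G).2 ⟨P, h, hP0, hPx⟩)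
    obtain ⟨a1, a2, a3⟩ := h1 P hPG
    have hX : XG G P = cx R := (Fc_root G h2 hodd hPG _).1 (by rw [hPx]; exact hx')
    rcases (cx_eq_iff a1 hR).1 (by rw [a2, hX]) with h | h
    · exact ⟨P, h⟩
    · exact ⟨-P, by rw [map_neg, h, neg_neg]⟩
  · rw [dg_eq a, card_Xi G hodd]
    exact Ng_natDegree G

end quo

end Pool.Agent.H98.NV
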